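import Pool.Agent.MP_ed8607_al.Syl

set_option autoImplicit false
set_option linter.unusedSectionVars false

/-!
Auxiliary homomorphism arguments: a homomorphism into a `p`-group that is trivial on a Sylow
subgroup is trivial, and the case `P = T` of the isolation theorem.
-/

namespace Pool.Agent.FusionCentral

open Subgroup

variable {G : Type*} [Group G] [Finite G] {p : ℕ} [hp : Fact p.Prime]

theorem hom_trivial {D D0 P : Subgroup G} (hD : Syl p D0 D) (hP : IsPGroup p P) (f : D →* G)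
    (h0 : ∀ d : D, (d : G) ∈ D0 → f d = 1) (hr : ∀ d : D, f d ∈ P) : ∀ d : D, f d = 1 := by
  have h1 : D0.subgroupOf D ≤ f.ker := fun d hd => h0 d hd
  have h2 : ¬ p ∣ f.ker.index := fun h => hD.2.2 (h.trans (Subgroup.index_dvd_of_le h1))
  rw [Subgroup.index_ker] at h2
  have h3 : f.range ≤ P := by
    rintro _ ⟨d, rfl⟩
    exact hr d
  have h4 : IsPGroup p f.range := hP.to_le h3
  rcases h4.card_eq_or_dvd with h5 | h5
  · intro d
    have h6 : f.range = ⊥ := Subgroup.card_eq_one.1 h5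
    have h7 : f d ∈ f.range := ⟨d, rfl⟩
    rw [h6] at h7
    exact h7
  · exact absurd h5 h2

/-- In a finite group with a central Sylow subgroup `Z` the map `v ↦ v ^ [Y : Z]` is multiplicative. -/
theorem pow_mul_of_central {Y : Type*} [Group Y] [Finite Y] (Z : Subgroup Y)
    (hZ : Z ≤ Subgroup.center Y) (v w : Y) : (v * w) ^ Z.index = v ^ Z.index * w ^ Z.index := by
  obtain ⟨k, hk⟩ := Subgroup.index_dvd_of_le hZ
  have h1 : (v * w) ^ (Subgroup.center Y).index =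
      v ^ (Subgroup.center Y).index * w ^ (Subgroup.center Y).index := by
    rw [← MonoidHom.transferCenterPow_apply, ← MonoidHom.transferCenterPow_apply,
      ← MonoidHom.transferCenterPow_apply, map_mul, Subgroup.coe_mul]
  have h2 : v ^ (Subgroup.center Y).index ∈ Subgroup.center Y := by
    rw [← MonoidHom.transferCenterPow_apply]
    exact (MonoidHom.transferCenterPow Y v).2
  have h3 : Commute (v ^ (Subgroup.center Y).index) (w ^ (Subgroup.center Y).index) := by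
    rw [Subgroup.mem_center_iff] at h2
    exact (h2 _).symm
  rw [hk, pow_mul, pow_mul, pow_mul, h1, h3.mul_pow]

section fix

variable {T H : Subgroup G} [H.Normal]

/-- `N_H(T)` centralises the commutators of `C_G(T)` that lie in `T`. -/
theorem fix_commutator (hT : Syl p T H) {n a b : G} (hnH : n ∈ H)
    (hnT : n ∈ normalizer (T : Set G)) (ha : ∀ t ∈ T, a * t = t * a) (hb : ∀ t ∈ T, b * t = t * b)
    (hw : a⁻¹ * b * a * b⁻¹ ∈ T) : n * (a⁻¹ * b * a * b⁻¹) * n⁻¹ = a⁻¹ * b * a * b⁻¹ := by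
  set C : Subgroup G := centralizer (T : Set G) with hC
  have memC : ∀ {c : G}, c ∈ C ↔ ∀ t ∈ T, c * t = t * c := by
    intro c
    rw [hC, Subgroup.mem_centralizer_iff]
    exact ⟨fun h t ht => (h t ht).symm, fun h t ht => (h t ht).symm⟩
  -- the Sylow subgroup of `H ⊓ C`
  have hCn : C ≤ normalizer (T : Set G) := by
    intro c hc
    rw [mem_nz]
    intro y hy
    rw [memC.1 hc y hy]; simpa using hy
  have hZY : Syl p (T ⊓ C) (H ⊓ C) := by
    have h1 : Syl p T (H ⊓ normalizer (T : Set G)) :=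
      hT.mono (le_inf hT.1 Subgroup.le_normalizer) inf_le_left
    have h2 := h1.inf (N := C) (by
      rintro b ⟨_, hb⟩ c hc
      rw [memC] at hc ⊢
      intro t ht
      have h3 : b⁻¹ * t * b ∈ T := by
        have := mem_nz.1 (Subgroup.inv_mem _ hb) t ht
        simpa using this
      have h4 := hc _ h3
      calc b * c * b⁻¹ * t = b * (c * (b⁻¹ * t * b)) * b⁻¹ := by group
        _ = b * ((b⁻¹ * t * b) * c) * b⁻¹ := by rw [h4]
        _ = t * (b * c * b⁻¹) := by group)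
    have h3 : H ⊓ normalizer (T : Set G) ⊓ C = H ⊓ C := by
      rw [inf_assoc, inf_eq_right.2 hCn]
    rwa [h3] at h2
  set Y : Subgroup G := H ⊓ C with hY
  set Z : Subgroup Y := (T ⊓ C).subgroupOf Y with hZ
  have hZc : Z ≤ Subgroup.center Y := by
    intro z hz
    rw [Subgroup.mem_center_iff]
    intro v
    ext
    have h1 : (z : G) ∈ T := hz.1
    exact memC.1 v.2.2 _ h1
  haveI hZn : Z.Normal := by
    refine ⟨fun z hz v => ?_⟩
    have h1 := Subgroup.mem_center_iff.1 (hZc hz) v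
    rw [h1]; simpa using hz
  set e : ℕ := Z.index with he
  have hpe : ¬ p ∣ e := hZY.2.2
  -- the power map
  have hpowmem : ∀ v ∈ Y, v ^ e ∈ T ⊓ C := by
    intro v hv
    have := Subgroup.pow_index_mem Z (⟨v, hv⟩ : Y)
    exact this
  have hpowmul : ∀ v ∈ Y, ∀ w ∈ Y, (v * w) ^ e = v ^ e * w ^ e := by
    intro v hv w hw
    have := congrArg Subtype.val (pow_mul_of_central Z hZc (⟨v, hv⟩ : Y) ⟨w, hw⟩)
    simpa using this
  have hpow1 : ∀ z ∈ T ⊓ C, z ^ e = 1 → z = 1 := by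
    intro z hz h1
    have hd : orderOf z ∣ e := orderOf_dvd_of_pow_eq_one h1
    have h2 : IsPGroup p (T ⊓ C : Subgroup G) := hZY.2.1
    obtain ⟨k, hk⟩ := (IsPGroup.iff_orderOf.1 h2) ⟨z, hz⟩
    have h3 : orderOf z = p ^ k := by
      rw [← hk]; exact (Subgroup.orderOf_mk z hz).symm
    rcases Nat.eq_zero_or_pos k with h4 | h4
    · rw [h4, pow_zero] at h3
      exact orderOf_eq_one_iff.1 h3
    · exfalso
      apply hpe
      refine dvd_trans ?_ hd
      rw [h3]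
      exact dvd_pow_self p h4.ne'
  have hcomY : ∀ c ∈ C, c⁻¹ * n * c * n⁻¹ ∈ Y := by
    intro c hc
    refine ⟨?_, ?_⟩
    · refine H.mul_mem ?_ (H.inv_mem hnH)
      have := Subgroup.Normal.conj_mem (inferInstance : H.Normal) n hnH c⁻¹
      simpa using this
    · have h1 : n * c * n⁻¹ ∈ C := by
        rw [memC] at hc ⊢
        intro t ht
        have h3 : n⁻¹ * t * n ∈ T := by
          have := mem_nz.1 (Subgroup.inv_mem _ hnT) t ht
          simpa using this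
        have h4 := hc _ h3
        calc n * c * n⁻¹ * t = n * (c * (n⁻¹ * t * n)) * n⁻¹ := by group
          _ = n * ((n⁻¹ * t * n) * c) * n⁻¹ := by rw [h4]
          _ = t * (n * c * n⁻¹) := by group
      have := C.mul_mem (C.inv_mem hc) h1
      have e1 : c⁻¹ * (n * c * n⁻¹) = c⁻¹ * n * c * n⁻¹ := by group
      rwa [e1] at this
  -- the homomorphism
  let f : C →* G :=
    { toFun := fun c => ((c : G)⁻¹ * n * c * n⁻¹) ^ e
      map_one' := by simp
      map_mul' := by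
        rintro ⟨c, hc⟩ ⟨d, hd⟩
        show ((c * d)⁻¹ * n * (c * d) * n⁻¹) ^ e = (c⁻¹ * n * c * n⁻¹) ^ e * (d⁻¹ * n * d * n⁻¹) ^ e
        have h1 : (c * d)⁻¹ * n * (c * d) * n⁻¹ =
            (d⁻¹ * (c⁻¹ * n * c * n⁻¹) * d) * (d⁻¹ * n * d * n⁻¹) := by group
        have h2 : d⁻¹ * (c⁻¹ * n * c * n⁻¹) * d ∈ Y := by
          have h3 := hcomY c hc
          refine ⟨?_, ?_⟩
          · have := Subgroup.Normal.conj_mem (inferInstance : H.Normal) _ h3.1 d⁻¹
            simpa using this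
          · exact C.mul_mem (C.mul_mem (C.inv_mem hd) h3.2) hd
        rw [h1, hpowmul _ h2 _ (hcomY d hd)]
        congr 1
        have h4 : (d⁻¹ * (c⁻¹ * n * c * n⁻¹) * d) ^ e = d⁻¹ * (c⁻¹ * n * c * n⁻¹) ^ e * d := by
          have := conj_pow (a := d⁻¹) (b := c⁻¹ * n * c * n⁻¹) (i := e)
          simpa using this
        rw [h4]
        have h5 := memC.1 hd _ (hpowmem _ (hcomY c hc)).1
        rw [mul_assoc, ← h5]
        group }
  have hf : ∀ c : C, f c = ((c : G)⁻¹ * n * c * n⁻¹) ^ e := fun c => rfl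
  have hfm : ∀ c : C, f c ∈ T ⊓ C := fun c => by rw [hf]; exact hpowmem _ (hcomY _ c.2)
  have haC : a ∈ C := memC.2 ha
  have hbC : b ∈ C := memC.2 hb
  have hwC : a⁻¹ * b * a * b⁻¹ ∈ C :=
    C.mul_mem (C.mul_mem (C.mul_mem (C.inv_mem haC) hbC) haC) (C.inv_mem hbC)
  have h1 : f ⟨a⁻¹ * b * a * b⁻¹, hwC⟩ = 1 := by
    have e1 : (⟨a⁻¹ * b * a * b⁻¹, hwC⟩ : C) = (⟨a, haC⟩ : C)⁻¹ * ⟨b, hbC⟩ * ⟨a, haC⟩ * (⟨b, hbC⟩ : C)⁻¹ :=
      rfl
    rw [e1, map_mul, map_mul, map_mul, map_inv, map_inv]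
    have h2 := memC.1 (hfm ⟨a, haC⟩).2 _ (hfm ⟨b, hbC⟩).1
    rw [mul_assoc (f ⟨a, haC⟩)⁻¹, ← h2]
    group
  rw [hf] at h1
  have h2 : n * (a⁻¹ * b * a * b⁻¹) * n⁻¹ ∈ T := mem_nz.1 hnT _ hw
  have h3 : (a⁻¹ * b * a * b⁻¹)⁻¹ * n * (a⁻¹ * b * a * b⁻¹) * n⁻¹ ∈ T ⊓ C := by
    refine ⟨?_, (hcomY _ hwC).2⟩
    have := T.mul_mem (T.inv_mem hw) h2
    have e1 : (a⁻¹ * b * a * b⁻¹)⁻¹ * (n * (a⁻¹ * b * a * b⁻¹) * n⁻¹) =
      (a⁻¹ * b * a * b⁻¹)⁻¹ * n * (a⁻¹ * b * a * b⁻¹) * n⁻¹ := by group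
    rwa [e1] at this
  have h4 := hpow1 _ h3 h1
  have e1 : n * (a⁻¹ * b * a * b⁻¹) * n⁻¹ = (a⁻¹ * b * a * b⁻¹) *
      ((a⁻¹ * b * a * b⁻¹)⁻¹ * n * (a⁻¹ * b * a * b⁻¹) * n⁻¹) := by group
  rw [e1, h4, mul_one]

end fix

end Pool.Agent.FusionCentral
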