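import Pool.Agent.MP_ed8607_al.ZStar

set_option autoImplicit false
set_option linter.unusedSectionVars false

/-!
# `p`-solvable groups with `O_{p'} = 1` contain a self-centralising normal `p`-subgroup
-/

namespace Pool.Agent.FusionCentral

open Subgroup

variable {G : Type*} [Group G] [Finite G] {p : ℕ} [hp : Fact p.Prime]

/-- `N` is a normal subgroup of `H` -/
def NormalIn (N H : Subgroup G) : Prop := N ≤ H ∧ ∀ h ∈ H, ∀ n ∈ N, h * n * h⁻¹ ∈ N

omit [Finite G] in
theorem NormalIn.sup {N N' H : Subgroup G} (h : NormalIn N H) (h' : NormalIn N' H) :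
    NormalIn (N ⊔ N') H := by
  refine ⟨sup_le h.1 h'.1, ?_⟩
  intro k hk
  have h1 : N ⊔ N' ≤ (N ⊔ N').comap (MulAut.conj k).toMonoidHom := by
    refine sup_le ?_ ?_
    · intro n hn
      exact Subgroup.mem_sup_left (h.2 k hk n hn)
    · intro n hn
      exact Subgroup.mem_sup_right (h'.2 k hk n hn)
  intro n hn
  exact h1 hn

omit [Finite G] in
theorem NormalIn.inf {N N' H : Subgroup G} (h : NormalIn N H) (h' : NormalIn N' H) :
    NormalIn (N ⊓ N') H :=
  ⟨inf_le_left.trans h.1, fun k hk n hn => ⟨h.2 k hk n hn.1, h'.2 k hk n hn.2⟩⟩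

/-- a largest normal `p`-subgroup of `H` -/
theorem exists_Op (p : ℕ) (H : Subgroup G) :
    ∃ U : Subgroup G, NormalIn U H ∧ IsPGroup p U ∧
      ∀ D : Subgroup G, NormalIn D H → IsPGroup p D → D ≤ U := by
  classical
  have hfin : (Set.univ : Set (Subgroup G)).Finite := Set.finite_univ
  obtain ⟨U, hU, hmax⟩ := Set.exists_max_image
    {U : Subgroup G | NormalIn U H ∧ IsPGroup p U} (fun U => Nat.card U) (Set.toFinite _)
    ⟨⊥, ⟨bot_le, by
      intro h _ n hn
      rw [Subgroup.mem_bot] at hn ⊢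
      rw [hn]; group⟩, IsPGroup.of_bot⟩
  refine ⟨U, hU.1, hU.2, fun D hD hDp => ?_⟩
  have h1 : IsPGroup p (U ⊔ D : Subgroup G) := by
    refine IsPGroup.to_sup_of_normal_left' hU.2 hDp ?_
    intro d hd
    rw [mem_nz]
    intro u hu
    exact hU.1.2 d (hD.1 hd) u hu
  have h2 := hmax (U ⊔ D) ⟨hU.1.sup hD, h1⟩
  have h3 : U = U ⊔ D := Subgroup.eq_of_le_of_card_ge le_sup_left h2
  rw [h3]; exact le_sup_right

theorem centralizer_normalIn {U H : Subgroup G} (hU : NormalIn U H) :
    NormalIn (H ⊓ centralizer (U : Set G)) H := by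
  refine ⟨inf_le_left, ?_⟩
  rintro h hh c ⟨hc1, hc2'⟩
  have hc2 : c ∈ centralizer (U : Set G) := hc2'
  refine ⟨H.mul_mem (H.mul_mem hh hc1) (H.inv_mem hh), ?_⟩
  show h * c * h⁻¹ ∈ centralizer (U : Set G)
  rw [Subgroup.mem_centralizer_iff] at hc2 ⊢
  intro u hu
  have h1 : h⁻¹ * u * h ∈ U := by
    have := hU.2 h⁻¹ (H.inv_mem hh) u hu
    simpa using this
  have h2 := hc2 _ h1
  calc u * (h * c * h⁻¹) = h * ((h⁻¹ * u * h) * c) * h⁻¹ := by group
    _ = h * (c * (h⁻¹ * u * h)) * h⁻¹ := by rw [h2]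
    _ = _ := by group

/-- `H` has a series of subgroups normal in `H` whose factors are `p`-groups or have order prime
to `p`. -/
def PSolvable (p : ℕ) (H : Subgroup G) : Prop :=
  ∃ (k : ℕ) (N : ℕ → Subgroup G), N 0 = ⊥ ∧ N k = H ∧
    (∀ i ≤ k, ∀ h ∈ H, ∀ n ∈ N i, h * n * h⁻¹ ∈ N i) ∧
    (∀ i < k, N i ≤ N (i + 1) ∧ ((∃ m : ℕ, (N i).relIndex (N (i + 1)) = p ^ m) ∨
      Nat.Coprime ((N i).relIndex (N (i + 1))) p))

/-- Hall–Higman -/
theorem hall_higman {H : Subgroup G} (hs : PSolvable p H)
    (hN : ∀ N : Subgroup G, N ≤ H → (∀ h ∈ H, ∀ n ∈ N, h * n * h⁻¹ ∈ N) →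
      Nat.Coprime (Nat.card N) p → N = ⊥) :
    ∃ U : Subgroup G, NormalIn U H ∧ IsPGroup p U ∧ H ⊓ centralizer (U : Set G) ≤ U := by
  obtain ⟨U, hU, hUp, hUmax⟩ := exists_Op p H
  refine ⟨U, hU, hUp, ?_⟩
  set C : Subgroup G := H ⊓ centralizer (U : Set G) with hC
  have hCn : NormalIn C H := centralizer_normalIn hU
  have memC : ∀ {c : G}, c ∈ C → ∀ u ∈ U, c * u = u * c := fun hc u hu =>
    ((Subgroup.mem_centralizer_iff.1 hc.2) u hu).symm
  obtain ⟨k, N, hN0, hNk, hNn, hNs⟩ := hs
  have hle : ∀ i ≤ k, N i ≤ H := by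
    intro i hi
    obtain ⟨j, rfl⟩ := Nat.exists_eq_add_of_le hi
    clear hi
    rw [← hNk]
    have : ∀ j', j' ≤ j → N i ≤ N (i + j') := by
      intro j' hj'
      induction j' with
      | zero => exact le_rfl
      | succ j' ih =>
        exact (ih (by omega)).trans (hNs (i + j') (by omega)).1
    exact this j le_rfl
  have main : ∀ i ≤ k, N i ⊓ C ≤ U := by
    intro i
    induction i with
    | zero => intro _; rw [hN0]; simp
    | succ i ih =>
      intro hi
      have ih' := ih (by omega)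
      have hstep := hNs i (by omega)
      set D : Subgroup G := N (i + 1) ⊓ C with hD
      have hDn : NormalIn D H :=
        NormalIn.inf ⟨hle _ hi, hNn _ hi⟩ hCn
      set e := (N i).relIndex (N (i + 1)) with he
      -- the `e`-th powers of elements of `D` lie in `U`
      have hpow : ∀ d ∈ D, d ^ e ∈ U := by
        intro d hd
        haveI : ((N i).subgroupOf (N (i + 1))).Normal := by
          refine ⟨fun n hn g => ?_⟩
          exact hNn i (by omega) g (hle _ hi g.2) n hn
        have h1 := Subgroup.pow_index_mem ((N i).subgroupOf (N (i + 1))) (⟨d, hd.1⟩ : N (i + 1))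
        have h2 : d ^ e ∈ N i := h1
        exact ih' ⟨h2, C.pow_mem hd.2 _⟩
      rcases hstep.2 with ⟨m, hm⟩ | hcop
      · -- `D` is a `p`-group
        apply hUmax D hDn
        intro d
        obtain ⟨j, hj⟩ := hUp ⟨(d : G) ^ e, hpow d d.2⟩
        refine ⟨m + j, ?_⟩
        ext
        have h3 := congrArg Subtype.val hj
        simp only [SubmonoidClass.coe_pow, OneMemClass.coe_one] at h3 ⊢
        rw [pow_add, pow_mul, ← hm]
        exact h3
      · -- `p'`-case
        set Z : Subgroup D := U.subgroupOf D with hZ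
        have hZc : Z ≤ Subgroup.center D := by
          intro z hz
          rw [Subgroup.mem_center_iff]
          intro v
          ext
          exact memC v.2.2 _ hz
        haveI hZn : Z.Normal := by
          refine ⟨fun z hz v => ?_⟩
          have h1 := Subgroup.mem_center_iff.1 (hZc hz) v
          rw [h1]; simpa using hz
        have hidx : ¬ p ∣ Z.index := by
          intro hdvd
          rw [Subgroup.index_eq_card] at hdvd
          obtain ⟨q, hq⟩ := exists_prime_orderOf_dvd_card' (G := D ⧸ Z) p hdvd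
          have h1 : q ^ e = 1 := by
            obtain ⟨d, rfl⟩ := QuotientGroup.mk_surjective q
            rw [← QuotientGroup.mk_pow, QuotientGroup.eq_one_iff]
            exact hpow d d.2
          have h2 : p ∣ e := by rw [← hq]; exact orderOf_dvd_of_pow_eq_one h1
          have h3 : Nat.Coprime e p := hcop
          rw [Nat.Coprime, Nat.gcd_eq_right h2] at h3
          exact hp.out.one_lt.ne' h3
        -- the kernel of the power map
        set W : Subgroup G :=
          { carrier := {w | w ∈ D ∧ w ^ Z.index = 1}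
            mul_mem' := by
              rintro a b ⟨ha, ha1⟩ ⟨hb, hb1⟩
              refine ⟨D.mul_mem ha hb, ?_⟩
              have := congrArg Subtype.val (pow_mul_of_central Z hZc (⟨a, ha⟩ : D) ⟨b, hb⟩)
              simp only [SubmonoidClass.coe_pow, Subgroup.coe_mul] at this
              rw [this, ha1, hb1, one_mul]
            one_mem' := ⟨D.one_mem, one_pow _⟩
            inv_mem' := by
              rintro a ⟨ha, ha1⟩
              exact ⟨D.inv_mem ha, by rw [inv_pow, ha1, inv_one]⟩ } with hW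
        have hW1 : W = ⊥ := by
          apply hN W
          · exact fun w hw => hDn.1 hw.1
          · rintro h hh w ⟨hw, hw1⟩
            refine ⟨hDn.2 h hh w hw, ?_⟩
            rw [conj_pow, hw1]; group
          · rw [Nat.coprime_comm, hp.out.coprime_iff_not_dvd]
            intro hdvd
            obtain ⟨q, hq⟩ := exists_prime_orderOf_dvd_card' (G := W) p hdvd
            have h1 : orderOf q ∣ Z.index := by
              apply orderOf_dvd_of_pow_eq_one
              ext
              exact q.2.2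
            rw [hq] at h1
            exact hidx h1
        intro d hd
        have h1 : d ^ Z.index ∈ U := Subgroup.pow_index_mem Z (⟨d, hd⟩ : D)
        -- raise to a suitable power
        obtain ⟨j, hj⟩ := hUp ⟨d ^ Z.index, h1⟩
        have h2 : (d ^ p ^ j) ^ Z.index = 1 := by
          have := congrArg Subtype.val hj
          simp only [SubmonoidClass.coe_pow, OneMemClass.coe_one] at this
          rw [← pow_mul, mul_comm, pow_mul]; exact this
        have h3 : d ^ p ^ j ∈ W := ⟨D.pow_mem hd _, h2⟩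
        rw [hW1, Subgroup.mem_bot] at h3
        have h4 : Nat.Coprime (p ^ j) Z.index :=
          Nat.Coprime.pow_left j ((hp.out.coprime_iff_not_dvd).2 hidx)
        -- `d` is a power of `d ^ Z.index`
        have h5 : orderOf d ∣ p ^ j := orderOf_dvd_of_pow_eq_one h3
        have h6 : Nat.Coprime (orderOf d) Z.index := Nat.Coprime.coprime_dvd_left h5 h4
        obtain ⟨m, hm⟩ := exists_pow_eq_self_of_coprime h6.symm
        rw [← hm]
        exact U.pow_mem h1 m
  intro c hc
  exact main k le_rfl ⟨by rw [hNk]; exact hc.1, hc⟩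

/-- If `H` has a self-centralising normal `p`-subgroup, then `x` centralises `H`. -/
theorem constrained {H T U : Subgroup G} [H.Normal] {x : G} (hyp : Hyp p H T x)
    (hU : NormalIn U H) (hUp : IsPGroup p U) (hUc : H ⊓ centralizer (U : Set G) ≤ U) {h : G}
    (hh : h ∈ H) : x * h = h * x := by
  have hUT : U ≤ T := by
    obtain ⟨b, hb, hbU⟩ := hyp.syl.conj hUp hU.1
    intro u hu
    have h1 : b⁻¹ * u * b ∈ U := by
      have := hU.2 b⁻¹ (H.inv_mem hb) u hu
      simpa using this
    have h2 := hbU _ h1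
    have e1 : b * (b⁻¹ * u * b) * b⁻¹ = u := by group
    rwa [e1] at h2
  have hz1 : h * x * h⁻¹ * x⁻¹ ∈ H := K_conj_mem (Subgroup.mem_sup_left hh)
  have hz2 : h * x * h⁻¹ * x⁻¹ ∈ centralizer (U : Set G) := by
    rw [Subgroup.mem_centralizer_iff]
    intro u hu
    have h1 : h⁻¹ * u * h ∈ U := by
      have := hU.2 h⁻¹ (H.inv_mem hh) u hu
      simpa using this
    have h2 := hyp.comm _ (hUT h1)
    have h3 := hyp.comm _ (hUT hu)
    have h3' : u * x⁻¹ = x⁻¹ * u := by
      calc u * x⁻¹ = x⁻¹ * (x * u) * x⁻¹ := by group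
        _ = x⁻¹ * (u * x) * x⁻¹ := by rw [h3]
        _ = _ := by group
    calc u * (h * x * h⁻¹ * x⁻¹) = h * ((h⁻¹ * u * h) * x) * h⁻¹ * x⁻¹ := by group
      _ = h * (x * (h⁻¹ * u * h)) * h⁻¹ * x⁻¹ := by rw [h2]
      _ = h * x * h⁻¹ * (u * x⁻¹) := by group
      _ = h * x * h⁻¹ * (x⁻¹ * u) := by rw [h3']
      _ = _ := by group
  have hz3 : h * x * h⁻¹ * x⁻¹ ∈ T := hUT (hUc ⟨hz1, hz2⟩)
  have h4 : h * x * h⁻¹ ∈ T ⊔ zpowers x := by
    have := Subgroup.mul_mem_sup hz3 (mem_zpowers x)
    simpa using this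
  have h5 := hyp.isolated hh h4
  calc x * h = (h * x * h⁻¹) * h := by rw [h5]
    _ = h * x := by group

end Pool.Agent.FusionCentral
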