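import Pool.Agent.MP_ed8607_al.Base

set_option autoImplicit false
set_option linter.unusedSectionVars false

/-!
# Elements centralising the fusion system of a normal subgroup are isolated

`T` is a Sylow `p`-subgroup of the normal subgroup `H`, `x` is a `p`-element centralising `T`, and
every conjugation by an element of `H` between subgroups of `T` is realised by an element
centralising `x`.  Then `h x h⁻¹ ∈ T⟨x⟩`, `h ∈ H`, implies `h x h⁻¹ = x`.
-/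

namespace Pool.Agent.FusionCentral

open Subgroup

variable {G : Type*} [Group G] [Finite G] {p : ℕ} [hp : Fact p.Prime]

/-- the elements of `T` commuting with `y` -/
def cT (T : Subgroup G) (y : G) : Subgroup G := T ⊓ centralizer {y}

theorem mem_cT {T : Subgroup G} {y t : G} : t ∈ cT T y ↔ t ∈ T ∧ t * y = y * t := by
  unfold cT
  rw [Subgroup.mem_inf, Subgroup.mem_centralizer_iff]
  simp only [Set.mem_singleton_iff, forall_eq]
  exact ⟨fun h => ⟨h.1, h.2.symm⟩, fun h => ⟨h.1, h.2.symm⟩⟩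

section ctx

variable {H T : Subgroup G} [H.Normal] {x : G}

/-- the standing hypotheses -/
structure Hyp (p : ℕ) (H T : Subgroup G) (x : G) : Prop where
  syl : Syl p T H
  xp : IsPGroup p (zpowers x)
  comm : ∀ t ∈ T, t * x = x * t
  ext : ∀ P ≤ T, ∀ h ∈ H, (∀ y ∈ P, h * y * h⁻¹ ∈ T) →
    ∃ g : G, (∀ y ∈ P, g * y * g⁻¹ = h * y * h⁻¹) ∧ g * x * g⁻¹ = x

variable (hyp : Hyp p H T x)
include hyp

theorem Hyp.sylK : Syl p (T ⊔ zpowers x) (H ⊔ zpowers x) :=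
  hyp.syl.sup_zpowers hyp.xp hyp.comm

theorem Hyp.pS : IsPGroup p (T ⊔ zpowers x : Subgroup G) := hyp.sylK.2.1

theorem Hyp.cap : (T ⊔ zpowers x) ⊓ H = T :=
  hyp.syl.eq_of_le (le_inf le_sup_left hyp.syl.1) hyp.pS.to_inf_left inf_le_right

omit hyp in
theorem x_mem_S : x ∈ T ⊔ zpowers x := Subgroup.mem_sup_right (Subgroup.mem_zpowers x)

omit hyp in
theorem x_mem_K : x ∈ H ⊔ zpowers x := Subgroup.mem_sup_right (Subgroup.mem_zpowers x)

theorem Hyp.comm_S {y : G} (hy : y ∈ T ⊔ zpowers x) : y * x = x * y := by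
  obtain ⟨t, ht, i, rfl⟩ := (mem_sup_zpowers_of_comm hyp.comm).1 hy
  have h1 := hyp.comm t ht
  rw [mul_assoc, ← (Commute.refl x).zpow_right i, ← mul_assoc, h1, mul_assoc]

omit hyp in
theorem K_conj_mem {k : G} (hk : k ∈ H ⊔ zpowers x) : k * x * k⁻¹ * x⁻¹ ∈ H := by
  obtain ⟨h, hh, i, rfl⟩ := mem_sup_zpowers_of_normal.1 hk
  have h1 : h * x ^ i * x * (h * x ^ i)⁻¹ * x⁻¹ = h * (x * h⁻¹ * x⁻¹) := by
    have : x ^ i * x = x * x ^ i := ((Commute.refl x).zpow_left i).eq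
    rw [mul_assoc h, this]; group
  rw [h1]
  exact H.mul_mem hh (Subgroup.Normal.conj_mem inferInstance _ (H.inv_mem hh) x)

omit hyp in
theorem K_conj_H {k q : G} (hq : q ∈ H) : k * q * k⁻¹ ∈ H :=
  Subgroup.Normal.conj_mem inferInstance _ hq k

theorem Hyp.mem_T {q : G} (h1 : q ∈ T ⊔ zpowers x) (h2 : q ∈ H) : q ∈ T := by
  rw [← hyp.cap]; exact ⟨h1, h2⟩

/-- the inductive statement -/
def Iso (H T : Subgroup G) (x : G) (n : ℕ) : Prop :=
  ∀ k ∈ H ⊔ zpowers x, k * x * k⁻¹ ∈ T ⊔ zpowers x → n ≤ Nat.card (cT T (k * x * k⁻¹)) →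
    k * x * k⁻¹ = x

/-- the observation (O) -/
theorem Hyp.obs {n : ℕ} (hn : Iso H T x (n + 1)) {k : G} (hk : k ∈ H ⊔ zpowers x) {Q : Subgroup G}
    (hQ : Q ≤ T) (hcard : n < Nat.card Q) (hkQ : ∀ q ∈ Q, k * q * k⁻¹ ∈ T ⊔ zpowers x)
    (hkx : k * x * k⁻¹ ∈ T ⊔ zpowers x) : k * x * k⁻¹ = x := by
  apply hn k hk hkx
  have h1 : cj k Q ≤ cT T (k * x * k⁻¹) := by
    intro z hz
    rw [mem_cj] at hz
    have e1 : k * (k⁻¹ * z * k) * k⁻¹ = z := by group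
    have h2 := hkQ _ hz
    have h3 : k * (k⁻¹ * z * k) * k⁻¹ ∈ H := K_conj_H (hyp.syl.1 (hQ hz))
    rw [e1] at h2 h3
    rw [mem_cT]
    refine ⟨hyp.mem_T h2 h3, ?_⟩
    have h4 := hyp.comm _ (hQ hz)
    calc z * (k * x * k⁻¹) = k * ((k⁻¹ * z * k) * x) * k⁻¹ := by group
      _ = k * (x * (k⁻¹ * z * k)) * k⁻¹ := by rw [h4]
      _ = k * x * k⁻¹ * z := by group
  have h2 : Nat.card (cj k Q) ≤ Nat.card (cT T (k * x * k⁻¹)) :=
    Nat.card_le_card_of_injective (Subgroup.inclusion h1) (Subgroup.inclusion_injective h1)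
  rw [card_cj] at h2
  omega

/-- Step A: we may choose the conjugating element so that the centraliser is moved into `T`. -/
theorem Hyp.stepA {k : G} (hk : k ∈ H ⊔ zpowers x) :
    ∃ k' ∈ H ⊔ zpowers x, k' * x * k'⁻¹ = k * x * k⁻¹ ∧
      ∀ q ∈ cT T (k * x * k⁻¹), k'⁻¹ * q * k' ∈ T := by
  set y := k * x * k⁻¹ with hy
  have h1 : Syl p (cj k T) H := by
    refine hyp.syl.of_card (isPGroup_cj hyp.syl.2.1) ?_ (card_cj k T).ge
    intro z hz
    rw [mem_cj] at hz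
    have := K_conj_H (k := k) (hyp.syl.1 hz)
    have e1 : k * (k⁻¹ * z * k) * k⁻¹ = z := by group
    rwa [e1] at this
  have h2 : Syl p (cj k T) (H ⊓ centralizer {y}) := by
    refine h1.mono (le_inf h1.1 ?_) inf_le_left
    intro z hz
    rw [mem_cj] at hz
    rw [Subgroup.mem_centralizer_iff]
    rintro _ rfl
    have h4 := hyp.comm _ hz
    calc y * z = k * (x * (k⁻¹ * z * k)) * k⁻¹ := by rw [hy]; group
      _ = k * ((k⁻¹ * z * k) * x) * k⁻¹ := by rw [h4]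
      _ = z * y := by rw [hy]; group
  obtain ⟨b, hb, hbc⟩ := h2.conj (P := cT T y) (hyp.syl.2.1.to_inf_left)
    (inf_le_inf_right _ hyp.syl.1)
  refine ⟨b⁻¹ * k, ?_, ?_, ?_⟩
  · exact Subgroup.mul_mem _ (Subgroup.inv_mem _ (Subgroup.mem_sup_left hb.1)) hk
  · have h5 : b⁻¹ * y * b = y := by
      have h6 := Subgroup.mem_centralizer_iff.1 hb.2 y rfl
      rw [mul_assoc, h6]; group
    calc b⁻¹ * k * x * (b⁻¹ * k)⁻¹ = b⁻¹ * y * b := by rw [hy]; group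
      _ = y := h5
  · intro q hq
    have := hbc q hq
    rw [mem_cj] at this
    have e1 : (b⁻¹ * k)⁻¹ * q * (b⁻¹ * k) = k⁻¹ * (b * q * b⁻¹) * k := by group
    rwa [e1]

/-- Replace the conjugating element by an element of `H`. -/
theorem Hyp.toH {k : G} (hk : k ∈ H ⊔ zpowers x) :
    ∃ h ∈ H, ∃ i : ℤ, k = h * x ^ i ∧ h * x * h⁻¹ = k * x * k⁻¹ ∧
      (∀ t, t * x = x * t → k * t * k⁻¹ = h * t * h⁻¹) := by
  obtain ⟨h, hh, i, rfl⟩ := mem_sup_zpowers_of_normal.1 hk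
  refine ⟨h, hh, i, rfl, ?_, ?_⟩
  · have : x ^ i * x = x * x ^ i := ((Commute.refl x).zpow_left i).eq
    calc h * x * h⁻¹ = h * (x * x ^ i) * (h * x ^ i)⁻¹ := by group
      _ = h * (x ^ i * x) * (h * x ^ i)⁻¹ := by rw [this]
      _ = _ := by group
  · intro t ht
    have : t * x ^ i = x ^ i * t := (Commute.zpow_right (show Commute t x from ht) i).eq
    calc h * x ^ i * t * (h * x ^ i)⁻¹ = h * (x ^ i * t) * (x ^ i)⁻¹ * h⁻¹ := by group
      _ = h * (t * x ^ i) * (x ^ i)⁻¹ * h⁻¹ := by rw [this]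
      _ = _ := by group

/-- The case where the conjugate of `x` centralises `T`. -/
theorem Hyp.base {h : G} (hh : h ∈ H) (hhx : h * x * h⁻¹ ∈ T ⊔ zpowers x)
    (hhT : ∀ t ∈ T, h * t * h⁻¹ ∈ T) : h * x * h⁻¹ = x := by
  -- the subgroup `M = N_H(T⟨x⟩)`
  set M : Subgroup G := H ⊓ normalizer ((T ⊔ zpowers x : Subgroup G) : Set G) with hM
  have hMT : ∀ m ∈ M, m ∈ normalizer (T : Set G) := by
    intro m hm
    rw [mem_nz]
    intro t ht
    exact hyp.mem_T (mem_nz.1 hm.2 t (Subgroup.mem_sup_left ht))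
      (K_conj_H (hyp.syl.1 ht))
  have hd : ∀ m ∈ M, x⁻¹ * (m * x * m⁻¹) ∈ T := by
    intro m hm
    refine hyp.mem_T ?_ ?_
    · exact Subgroup.mul_mem _ (Subgroup.inv_mem _ x_mem_S) (mem_nz.1 hm.2 x x_mem_S)
    · have h1 : m * x * m⁻¹ * x⁻¹ ∈ H := K_conj_mem (Subgroup.mem_sup_left hm.1)
      have h2 := Subgroup.Normal.conj_mem (inferInstance : H.Normal) _ h1 x⁻¹
      have e1 : x⁻¹ * (m * x * m⁻¹ * x⁻¹) * x⁻¹⁻¹ = x⁻¹ * (m * x * m⁻¹) := by group
      rwa [e1] at h2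
  have hfix : ∀ m ∈ M, ∀ n ∈ M, n * (x⁻¹ * (m * x * m⁻¹)) * n⁻¹ = x⁻¹ * (m * x * m⁻¹) := by
    intro m hm
    obtain ⟨g, hg1, hg2⟩ := hyp.ext T le_rfl m hm.1 (mem_nz.1 (hMT m hm))
    set d := x⁻¹ * (m * x * m⁻¹) with hdd
    have hdT : d ∈ T := hd m hm
    have hg3 : ∀ t ∈ T, g⁻¹ * t * g = m⁻¹ * t * m := by
      intro t ht
      have h3 : m⁻¹ * t * m ∈ T := by
        have := mem_nz.1 (Subgroup.inv_mem _ (hMT m hm)) t ht
        simpa using this
      have h4 := hg1 _ h3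
      have e1 : m * (m⁻¹ * t * m) * m⁻¹ = t := by group
      rw [e1] at h4
      calc g⁻¹ * t * g = g⁻¹ * (g * (m⁻¹ * t * m) * g⁻¹) * g := by rw [h4]
        _ = _ := by group
    have hgx : g * x = x * g := by
      calc g * x = (g * x * g⁻¹) * g := by group
        _ = x * g := by rw [hg2]
    have hu : ∀ t ∈ T, (g⁻¹ * m) * t = t * (g⁻¹ * m) := by
      intro t ht
      have h4 := hg1 t ht
      calc (g⁻¹ * m) * t = g⁻¹ * (m * t * m⁻¹) * m := by group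
        _ = g⁻¹ * (g * t * g⁻¹) * m := by rw [h4]
        _ = _ := by group
    have hz : x⁻¹ * (g⁻¹ * m) * x * (g⁻¹ * m)⁻¹ = m⁻¹ * d * m := by
      rw [← hg3 d hdT, hdd]
      have hgx' : x⁻¹ * g⁻¹ = g⁻¹ * x⁻¹ := by
        rw [← mul_inv_rev, hgx, mul_inv_rev]
      calc x⁻¹ * (g⁻¹ * m) * x * (g⁻¹ * m)⁻¹ = (x⁻¹ * g⁻¹) * m * x * m⁻¹ * g := by group
        _ = (g⁻¹ * x⁻¹) * m * x * m⁻¹ * g := by rw [hgx']
        _ = _ := by group
    have hzT : x⁻¹ * (g⁻¹ * m) * x * (g⁻¹ * m)⁻¹ ∈ T := by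
      rw [hz]
      have := mem_nz.1 (Subgroup.inv_mem _ (hMT m hm)) d hdT
      simpa using this
    have hxc : ∀ t ∈ T, x * t = t * x := fun t ht => (hyp.comm t ht).symm
    have hF : ∀ n ∈ M, n * (m⁻¹ * d * m) * n⁻¹ = m⁻¹ * d * m := by
      intro n hn
      have := fix_commutator hyp.syl hn.1 (hMT n hn) hxc hu hzT
      rw [hz] at this
      exact this
    have h5 : d = m⁻¹ * d * m := by
      have := hF m hm
      calc d = m * (m⁻¹ * d * m) * m⁻¹ := by group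
        _ = _ := this
    intro n hn
    have := hF n hn
    rwa [← h5] at this
  let f : M →* G :=
    { toFun := fun m => x⁻¹ * ((m : G) * x * (m : G)⁻¹)
      map_one' := by simp
      map_mul' := by
        rintro ⟨m, hm⟩ ⟨n, hn⟩
        show x⁻¹ * ((m * n) * x * (m * n)⁻¹) = (x⁻¹ * (m * x * m⁻¹)) * (x⁻¹ * (n * x * n⁻¹))
        have h1 := hfix n hn m hm
        calc x⁻¹ * ((m * n) * x * (m * n)⁻¹) =
            x⁻¹ * (m * x * m⁻¹) * (m * (x⁻¹ * (n * x * n⁻¹)) * m⁻¹) := by group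
          _ = _ := by rw [h1] }
  have hTM : T ≤ M := by
    refine le_inf hyp.syl.1 ?_
    exact le_sup_left.trans Subgroup.le_normalizer
  have hSM : Syl p T M := hyp.syl.mono hTM inf_le_left
  have h1 := hom_trivial hSM hyp.syl.2.1 f (by
    rintro ⟨m, hm⟩ hmT
    show x⁻¹ * (m * x * m⁻¹) = 1
    have hmT' : m ∈ T := hmT
    have := hyp.comm m hmT'
    rw [this]; group) (fun m => hd m m.2)
  have hhM : h ∈ M := by
    refine ⟨hh, mem_nz.2 ?_⟩
    intro y hy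
    obtain ⟨t, ht, i, rfl⟩ := (mem_sup_zpowers_of_comm hyp.comm).1 hy
    have e1 : h * (t * x ^ i) * h⁻¹ = (h * t * h⁻¹) * (h * x * h⁻¹) ^ i := by
      rw [conj_zpow]; group
    rw [e1]
    exact Subgroup.mul_mem _ (Subgroup.mem_sup_left (hhT t ht)) (Subgroup.zpow_mem _ hhx i)
  have h2 : x⁻¹ * (h * x * h⁻¹) = 1 := h1 ⟨h, hhM⟩
  calc h * x * h⁻¹ = x * (x⁻¹ * (h * x * h⁻¹)) := by group
    _ = x := by rw [h2, mul_one]

end ctx

end Pool.Agent.FusionCentral
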