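import Pool.Agent.MP_ed8607_al.Isolated

set_option autoImplicit false
set_option linter.unusedSectionVars false

/-!
# The fully normalised case of the isolation theorem
-/

namespace Pool.Agent.FusionCentral

open Subgroup

variable {G : Type*} [Group G] [Finite G] {p : ℕ} [hp : Fact p.Prime]

variable {H T : Subgroup G} [H.Normal] {x : G}

variable (hyp : Hyp p H T x)
include hyp

theorem Hyp.R_le_S {y : G} : cT T y ⊔ zpowers x ≤ T ⊔ zpowers x :=
  sup_le_sup_right inf_le_left _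

theorem Hyp.memR {y : G} {r : G} :
    r ∈ cT T y ⊔ zpowers x ↔ ∃ t ∈ cT T y, ∃ i : ℤ, r = t * x ^ i :=
  mem_sup_zpowers_of_comm (fun t ht => hyp.comm t (mem_cT.1 ht).1)

theorem Hyp.R_inf_H {y : G} (hyS : y ∈ T ⊔ zpowers x) {r : G}
    (hr : r ∈ cT T y ⊔ zpowers x) (hrH : r ∈ H) : r ∈ cT T y := by
  have h1 : r ∈ T := hyp.mem_T (hyp.R_le_S hr) hrH
  rw [mem_cT]
  refine ⟨h1, ?_⟩
  obtain ⟨t, ht, i, rfl⟩ := hyp.memR.1 hr
  have h2 := (mem_cT.1 ht).2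
  have h3 : x ^ i * y = y * x ^ i :=
    (Commute.zpow_left (show Commute x y from (hyp.comm_S hyS).symm) i).eq
  rw [mul_assoc, h3, ← mul_assoc, h2, mul_assoc]

/-- normalising `P` and commuting with `x` gives normalising `P⟨x⟩` -/
theorem Hyp.nzR {y g : G} (h1 : g ∈ normalizer ((cT T y : Subgroup G) : Set G))
    (h2 : g * x = x * g) : g ∈ normalizer ((cT T y ⊔ zpowers x : Subgroup G) : Set G) := by
  rw [mem_nz]
  intro r hr
  obtain ⟨t, ht, i, rfl⟩ := hyp.memR.1 hr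
  have h3 : g * x ^ i = x ^ i * g := (Commute.zpow_right (show Commute g x from h2) i).eq
  have e1 : g * (t * x ^ i) * g⁻¹ = (g * t * g⁻¹) * x ^ i := by
    calc g * (t * x ^ i) * g⁻¹ = g * t * g⁻¹ * (g * x ^ i) * g⁻¹ := by group
      _ = g * t * g⁻¹ * (x ^ i * g) * g⁻¹ := by rw [h3]
      _ = _ := by group
  rw [e1]
  exact Subgroup.mul_mem_sup (mem_nz.1 h1 t ht) (Subgroup.zpow_mem_zpowers x i)

theorem Hyp.nzP {y m : G} (hyS : y ∈ T ⊔ zpowers x) (_hm : m ∈ H)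
    (h : m ∈ normalizer ((cT T y ⊔ zpowers x : Subgroup G) : Set G)) :
    m ∈ normalizer ((cT T y : Subgroup G) : Set G) := by
  rw [mem_nz]
  intro q hq
  exact hyp.R_inf_H hyS (mem_nz.1 h q (Subgroup.mem_sup_left hq))
    (K_conj_H (hyp.syl.1 (mem_cT.1 hq).1))

/-- elements of `M = N_H(P⟨x⟩)` centralising `P` centralise `x` -/
theorem Hyp.cent {y : G} (hyS : y ∈ T ⊔ zpowers x)
    (hQ : Syl p (T ⊓ normalizer ((cT T y : Subgroup G) : Set G))
      (H ⊓ normalizer ((cT T y ⊔ zpowers x : Subgroup G) : Set G))) {d : G}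
    (hd : d ∈ H ⊓ normalizer ((cT T y ⊔ zpowers x : Subgroup G) : Set G))
    (hdc : ∀ q ∈ cT T y, d * q = q * d) : d * x * d⁻¹ = x := by
  set P := cT T y with hP
  set M : Subgroup G := H ⊓ normalizer ((P ⊔ zpowers x : Subgroup G) : Set G) with hM
  set C : Subgroup G := centralizer (P : Set G) with hC
  have memC : ∀ {c : G}, c ∈ C ↔ ∀ t ∈ P, c * t = t * c := by
    intro c
    rw [hC, Subgroup.mem_centralizer_iff]
    exact ⟨fun h t ht => (h t ht).symm, fun h t ht => (h t ht).symm⟩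
  have hS := hQ.inf (N := C) (by
    intro b hb c hc
    rw [memC] at hc ⊢
    intro t ht
    have hbP : b ∈ normalizer (P : Set G) := hyp.nzP hyS hb.1 hb.2
    have h3 : b⁻¹ * t * b ∈ P := by
      have := mem_nz.1 (Subgroup.inv_mem _ hbP) t ht
      simpa using this
    have h4 := hc _ h3
    calc b * c * b⁻¹ * t = b * (c * (b⁻¹ * t * b)) * b⁻¹ := by group
      _ = b * ((b⁻¹ * t * b) * c) * b⁻¹ := by rw [h4]
      _ = t * (b * c * b⁻¹) := by group)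
  have hdP : ∀ c ∈ M ⊓ C, x⁻¹ * (c * x * c⁻¹) ∈ P := by
    intro c hc
    refine hyp.R_inf_H hyS ?_ ?_
    · exact Subgroup.mul_mem _ (Subgroup.inv_mem _ (Subgroup.mem_sup_right (mem_zpowers x)))
        (mem_nz.1 hc.1.2 x (Subgroup.mem_sup_right (mem_zpowers x)))
    · have h1 : c * x * c⁻¹ * x⁻¹ ∈ H := K_conj_mem (Subgroup.mem_sup_left hc.1.1)
      have h2 := Subgroup.Normal.conj_mem (inferInstance : H.Normal) _ h1 x⁻¹
      have e1 : x⁻¹ * (c * x * c⁻¹ * x⁻¹) * x⁻¹⁻¹ = x⁻¹ * (c * x * c⁻¹) := by group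
      rwa [e1] at h2
  let f : (M ⊓ C : Subgroup G) →* G :=
    { toFun := fun c => x⁻¹ * ((c : G) * x * (c : G)⁻¹)
      map_one' := by simp
      map_mul' := by
        rintro ⟨a, ha⟩ ⟨b, hb⟩
        show x⁻¹ * ((a * b) * x * (a * b)⁻¹) = (x⁻¹ * (a * x * a⁻¹)) * (x⁻¹ * (b * x * b⁻¹))
        have h1 := memC.1 ha.2 _ (hdP b hb)
        have h2 : a * (x⁻¹ * (b * x * b⁻¹)) * a⁻¹ = x⁻¹ * (b * x * b⁻¹) := by
          rw [h1]; group
        calc x⁻¹ * ((a * b) * x * (a * b)⁻¹) =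
            x⁻¹ * (a * x * a⁻¹) * (a * (x⁻¹ * (b * x * b⁻¹)) * a⁻¹) := by group
          _ = _ := by rw [h2] }
  have hPp : IsPGroup p P := hyp.syl.2.1.to_inf_left
  have h1 := hom_trivial hS hPp f (by
    rintro ⟨c, hc⟩ hcT
    show x⁻¹ * (c * x * c⁻¹) = 1
    have hcT' : c ∈ T := hcT.1.1
    have := hyp.comm c hcT'
    rw [this]; group) (fun c => hdP c c.2)
  have h2 : x⁻¹ * (d * x * d⁻¹) = 1 := h1 ⟨d, hd, memC.2 hdc⟩
  calc d * x * d⁻¹ = x * (x⁻¹ * (d * x * d⁻¹)) := by group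
    _ = x := by rw [h2, mul_one]

/-- The fully normalised case. -/
theorem Hyp.key {n : ℕ} (hn : Iso H T x (n + 1)) {y : G} (hyS : y ∈ T ⊔ zpowers x)
    (hcard : Nat.card (cT T y) = n) (hlt : cT T y < T)
    (hA : Syl p ((T ⊔ zpowers x) ⊓ normalizer ((cT T y ⊔ zpowers x : Subgroup G) : Set G))
      ((H ⊔ zpowers x) ⊓ normalizer ((cT T y ⊔ zpowers x : Subgroup G) : Set G)))
    {m : G} (hm : m ∈ H ⊓ normalizer ((cT T y ⊔ zpowers x : Subgroup G) : Set G)) :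
    m * x * m⁻¹ = x := by
  set P := cT T y with hP
  set R : Subgroup G := P ⊔ zpowers x with hR
  set M : Subgroup G := H ⊓ normalizer (R : Set G) with hM
  set Q : Subgroup G := T ⊓ normalizer (P : Set G) with hQ
  have hPQ : P < Q := lt_inf_normalizer hyp.syl.2.1 hlt
  have hQcard : n < Nat.card Q := by
    rw [← hcard]
    exact Set.ncard_lt_ncard (s := (P : Set G)) (t := (Q : Set G)) hPQ (Set.toFinite _)
  have hQM : Q ≤ M := by
    intro t ht
    exact ⟨hyp.syl.1 ht.1, hyp.nzR ht.2 (hyp.comm t ht.1)⟩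
  have hQS : Syl p Q M := by
    have h1 := hA.inf (N := H) (fun b _ h hh => K_conj_H hh)
    have e1 : (T ⊔ zpowers x) ⊓ normalizer (R : Set G) ⊓ H = Q := by
      apply le_antisymm
      · rintro t ⟨⟨h2, h3⟩, h4⟩
        exact ⟨hyp.mem_T h2 h4, hyp.nzP hyS h4 h3⟩
      · intro t ht
        exact ⟨⟨Subgroup.mem_sup_left ht.1, (hQM ht).2⟩, (hQM ht).1⟩
    have e2 : (H ⊔ zpowers x) ⊓ normalizer (R : Set G) ⊓ H = M := by
      apply le_antisymm
      · rintro t ⟨⟨h2, h3⟩, h4⟩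
        exact ⟨h4, h3⟩
      · intro t ht
        exact ⟨⟨Subgroup.mem_sup_left ht.1, ht.2⟩, ht.1⟩
    rwa [e1, e2] at h1
  have hmP : m ∈ normalizer (P : Set G) := hyp.nzP hyS hm.1 hm.2
  obtain ⟨g, hg1, hg2⟩ := hyp.ext P inf_le_left m hm.1
    (fun q hq => (mem_cT.1 (mem_nz.1 hmP q hq)).1)
  have hgx : g * x = x * g := by
    calc g * x = (g * x * g⁻¹) * g := by group
      _ = x * g := by rw [hg2]
  have hgP : g ∈ normalizer (P : Set G) := by
    rw [mem_nz]; intro q hq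
    rw [hg1 q hq]; exact mem_nz.1 hmP q hq
  -- `L ∩ H`
  set LH : Subgroup G := H ⊓ normalizer (P : Set G) ⊓ centralizer {x} with hLH
  have memLH : ∀ {b : G}, b ∈ LH ↔ b ∈ H ∧ b ∈ normalizer (P : Set G) ∧ b * x = x * b := by
    intro b
    rw [hLH, Subgroup.mem_inf, Subgroup.mem_inf, Subgroup.mem_centralizer_iff]
    simp only [Set.mem_singleton_iff, forall_eq]
    exact ⟨fun h => ⟨h.1.1, h.1.2, h.2.symm⟩, fun h => ⟨⟨h.1, h.2.1⟩, h.2.2.symm⟩⟩
  have hQLH : Q ≤ LH := by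
    intro t ht
    rw [memLH]
    exact ⟨hyp.syl.1 ht.1, ht.2, hyp.comm t ht.1⟩
  have hLHM : LH ≤ M := by
    intro b hb
    rw [memLH] at hb
    exact ⟨hb.1, hyp.nzR hb.2.1 hb.2.2⟩
  have hQLHS : Syl p Q LH := hQS.mono hQLH hLHM
  have hgQ : cj g Q ≤ LH := by
    intro z hz
    rw [mem_cj] at hz
    have hz' := memLH.1 (hQLH hz)
    have e1 : g * (g⁻¹ * z * g) * g⁻¹ = z := by group
    rw [memLH]
    refine ⟨?_, ?_, ?_⟩
    · rw [← e1]; exact K_conj_H hz'.1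
    · rw [← e1]
      exact Subgroup.mul_mem _ (Subgroup.mul_mem _ hgP hz'.2.1) (Subgroup.inv_mem _ hgP)
    · have hgx' : g⁻¹ * x = x * g⁻¹ := by
        calc g⁻¹ * x = g⁻¹ * (x * g) * g⁻¹ := by group
          _ = g⁻¹ * (g * x) * g⁻¹ := by rw [hgx]
          _ = _ := by group
      calc z * x = g * (g⁻¹ * z * g) * (g⁻¹ * x) := by group
        _ = g * ((g⁻¹ * z * g) * x) * g⁻¹ := by rw [hgx']; group
        _ = g * (x * (g⁻¹ * z * g)) * g⁻¹ := by rw [hz'.2.2]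
        _ = (g * x) * g⁻¹ * z := by group
        _ = (x * g) * g⁻¹ * z := by rw [hgx]
        _ = x * z := by group
  obtain ⟨b, hb, hbQ⟩ := hQLHS.conj (isPGroup_cj (b := g) hQLHS.2.1) hgQ
  have hb' := memLH.1 hb
  -- `ν = b g` normalises `Q` and commutes with `x`
  set v := b * g with hv
  have hvQ : ∀ q ∈ Q, v * q * v⁻¹ ∈ Q := by
    intro q hq
    have := hbQ _ (conj_mem_cj (b := g) hq)
    have e1 : b * (g * q * g⁻¹) * b⁻¹ = v * q * v⁻¹ := by rw [hv]; group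
    rwa [e1] at this
  have hvP : v ∈ normalizer (P : Set G) := Subgroup.mul_mem _ hb'.2.1 hgP
  set m' := b * m with hm'
  have hm'M : m' ∈ M := M.mul_mem (hLHM hb) hm
  have hact : ∀ q ∈ P, m' * q * m'⁻¹ = v * q * v⁻¹ := by
    intro q hq
    have h1 := hg1 q hq
    calc m' * q * m'⁻¹ = b * (m * q * m⁻¹) * b⁻¹ := by rw [hm']; group
      _ = b * (g * q * g⁻¹) * b⁻¹ := by rw [h1]
      _ = _ := by rw [hv]; group
  -- the subgroup `J` of elements of `M` acting on `P` as an element of `Q`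
  let J : Subgroup G :=
    { carrier := {z | z ∈ M ∧ ∃ q ∈ Q, ∀ r ∈ P, z * r * z⁻¹ = q * r * q⁻¹}
      mul_mem' := by
        rintro a c ⟨ha, q, hq, h1⟩ ⟨hc, q', hq', h2⟩
        refine ⟨M.mul_mem ha hc, q * q', Q.mul_mem hq hq', fun r hr => ?_⟩
        have h3 := h2 r hr
        have h4 : q' * r * q'⁻¹ ∈ P := mem_nz.1 hq'.2 r hr
        calc a * c * r * (a * c)⁻¹ = a * (c * r * c⁻¹) * a⁻¹ := by group
          _ = a * (q' * r * q'⁻¹) * a⁻¹ := by rw [h3]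
          _ = q * (q' * r * q'⁻¹) * q⁻¹ := h1 _ h4
          _ = _ := by group
      one_mem' := ⟨M.one_mem, 1, Q.one_mem, fun r _ => rfl⟩
      inv_mem' := by
        rintro a ⟨ha, q, hq, h1⟩
        refine ⟨M.inv_mem ha, q⁻¹, Q.inv_mem hq, fun r hr => ?_⟩
        have h4 : q⁻¹ * r * q ∈ P := by
          have := mem_nz.1 (Subgroup.inv_mem _ hq.2) r hr
          simpa using this
        have h5 := h1 _ h4
        have e1 : q * (q⁻¹ * r * q) * q⁻¹ = r := by group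
        rw [e1] at h5
        calc a⁻¹ * r * a⁻¹⁻¹ = a⁻¹ * (a * (q⁻¹ * r * q) * a⁻¹) * a := by rw [h5]; group
          _ = _ := by group }
  have memJ : ∀ {z : G}, z ∈ J ↔ z ∈ M ∧ ∃ q ∈ Q, ∀ r ∈ P, z * r * z⁻¹ = q * r * q⁻¹ :=
    fun {z} => Iff.rfl
  have hQJ : Q ≤ J := fun q hq => ⟨hQM hq, q, hq, fun r _ => rfl⟩
  have hQJS : Syl p Q J := hQS.mono hQJ (fun z hz => hz.1)
  have hmQJ : cj m' Q ≤ J := by
    intro z hz
    rw [mem_cj] at hz
    set q := m'⁻¹ * z * m' with hq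
    have hzq : z = m' * q * m'⁻¹ := by rw [hq]; group
    refine ⟨?_, v * q * v⁻¹, hvQ q hz, fun r hr => ?_⟩
    · rw [hzq]; exact M.mul_mem (M.mul_mem hm'M (hQM hz)) (M.inv_mem hm'M)
    · -- r = v r0 v⁻¹ = m' r0 m'⁻¹
      have hr0 : v⁻¹ * r * v ∈ P := by
        have := mem_nz.1 (Subgroup.inv_mem _ hvP) r hr
        simpa using this
      have h5 := hact _ hr0
      have e1 : v * (v⁻¹ * r * v) * v⁻¹ = r := by group
      rw [e1] at h5
      have h6 : m'⁻¹ * r * m' = v⁻¹ * r * v := by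
        calc m'⁻¹ * r * m' = m'⁻¹ * (m' * (v⁻¹ * r * v) * m'⁻¹) * m' := by rw [h5]
          _ = _ := by group
      have h7 : q * (v⁻¹ * r * v) * q⁻¹ ∈ P := mem_nz.1 hz.2 _ hr0
      calc z * r * z⁻¹ = m' * (q * (m'⁻¹ * r * m') * q⁻¹) * m'⁻¹ := by rw [hzq]; group
        _ = m' * (q * (v⁻¹ * r * v) * q⁻¹) * m'⁻¹ := by rw [h6]
        _ = v * (q * (v⁻¹ * r * v) * q⁻¹) * v⁻¹ := hact _ h7
        _ = _ := by group
  obtain ⟨j, hj, hjQ⟩ := hQJS.conj (isPGroup_cj (b := m') hQS.2.1) hmQJ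
  obtain ⟨hjM, q, hq, hjq⟩ := memJ.1 hj
  -- `d = q⁻¹ j` centralises `P`
  set d := q⁻¹ * j with hd
  have hdM : d ∈ M := M.mul_mem (M.inv_mem (hQM hq)) hjM
  have hdc : ∀ r ∈ P, d * r = r * d := by
    intro r hr
    have h5 := hjq r hr
    calc d * r = q⁻¹ * (j * r * j⁻¹) * j := by rw [hd]; group
      _ = q⁻¹ * (q * r * q⁻¹) * j := by rw [h5]
      _ = r * d := by rw [hd]; group
  have hdx : d * x * d⁻¹ = x := hyp.cent hyS hQS hdM hdc
  set w := d * m' with hw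
  have hwM : w ∈ M := M.mul_mem hdM hm'M
  have hwQ : ∀ r ∈ Q, w * r * w⁻¹ ∈ Q := by
    intro r hr
    have h5 := hjQ _ (conj_mem_cj (b := m') hr)
    have e1 : w * r * w⁻¹ = q⁻¹ * (j * (m' * r * m'⁻¹) * j⁻¹) * q := by rw [hw, hd]; group
    rw [e1]
    exact Q.mul_mem (Q.mul_mem (Q.inv_mem hq) h5) hq
  have hwx : w * x * w⁻¹ = x := by
    refine hyp.obs hn (Subgroup.mem_sup_left hwM.1) (Q := Q) inf_le_left hQcard ?_ ?_
    · intro r hr
      exact Subgroup.mem_sup_left (hwQ r hr).1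
    · exact hyp.R_le_S (mem_nz.1 hwM.2 x (Subgroup.mem_sup_right (mem_zpowers x)))
  have hm'x : m' * x * m'⁻¹ = x := by
    calc m' * x * m'⁻¹ = d⁻¹ * (w * x * w⁻¹) * d := by rw [hw]; group
      _ = d⁻¹ * x * d := by rw [hwx]
      _ = d⁻¹ * (d * x * d⁻¹) * d := by rw [hdx]
      _ = x := by group
  calc m * x * m⁻¹ = b⁻¹ * (m' * x * m'⁻¹) * b := by rw [hm']; group
    _ = b⁻¹ * (x * b) := by rw [hm'x]; group
    _ = b⁻¹ * (b * x) := by rw [hb'.2.2]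
    _ = x := by group

end Pool.Agent.FusionCentral
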