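import Pool.Agent.MP_ed8607_al.Key

set_option autoImplicit false
set_option linter.unusedSectionVars false

/-!
# The isolation theorem
-/

namespace Pool.Agent.FusionCentral

open Subgroup

variable {G : Type*} [Group G] [Finite G] {p : ℕ} [hp : Fact p.Prime]

theorem mem_nz_cj {R : Subgroup G} {k z : G} :
    z ∈ normalizer ((cj k R : Subgroup G) : Set G) ↔ k⁻¹ * z * k ∈ normalizer (R : Set G) := by
  rw [mem_nz, mem_nz]
  constructor
  · intro h r hr
    have h1 := h _ (conj_mem_cj (b := k) hr)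
    rw [mem_cj] at h1
    have e1 : k⁻¹ * (z * (k * r * k⁻¹) * z⁻¹) * k = k⁻¹ * z * k * r * (k⁻¹ * z * k)⁻¹ := by group
    rwa [e1] at h1
  · intro h r hr
    rw [mem_cj] at hr ⊢
    have h1 := h _ hr
    have e1 : k⁻¹ * z * k * (k⁻¹ * r * k) * (k⁻¹ * z * k)⁻¹ = k⁻¹ * (z * r * z⁻¹) * k := by group
    rwa [e1] at h1

theorem cj_sup_zpowers {P : Subgroup G} {k x : G} (h : k * x * k⁻¹ = x) :
    cj k (P ⊔ zpowers x) = cj k P ⊔ zpowers x := by
  unfold cj
  rw [Subgroup.map_sup, MonoidHom.map_zpowers]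
  have : (MulAut.conj k).toMonoidHom x = x := by simpa [MulAut.conj_apply] using h
  rw [this]

variable {H T : Subgroup G} [H.Normal] {x : G}

variable (hyp : Hyp p H T x)
include hyp

theorem Hyp.full {n : ℕ} (hn : Iso H T x (n + 1)) {k0 : G} (hk0 : k0 ∈ H ⊔ zpowers x)
    (hyS : k0 * x * k0⁻¹ ∈ T ⊔ zpowers x) (hcard : Nat.card (cT T (k0 * x * k0⁻¹)) = n)
    (hlt : cT T (k0 * x * k0⁻¹) < T) (hne : k0 * x * k0⁻¹ ≠ x) :
    ∃ k ∈ H ⊔ zpowers x, k * x * k⁻¹ ∈ T ⊔ zpowers x ∧ Nat.card (cT T (k * x * k⁻¹)) = n ∧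
      k * x * k⁻¹ ≠ x ∧
      Syl p ((T ⊔ zpowers x) ⊓ normalizer ((cT T (k * x * k⁻¹) ⊔ zpowers x : Subgroup G) : Set G))
        ((H ⊔ zpowers x) ⊓
          normalizer ((cT T (k * x * k⁻¹) ⊔ zpowers x : Subgroup G) : Set G)) := by
  set y := k0 * x * k0⁻¹ with hy
  set P := cT T y with hP
  set R : Subgroup G := P ⊔ zpowers x with hR
  have hSK : (T ⊔ zpowers x : Subgroup G) ≤ H ⊔ zpowers x := hyp.sylK.1
  obtain ⟨A, hA0, hA⟩ := exists_syl (p := p) (P := (T ⊔ zpowers x) ⊓ normalizer (R : Set G))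
    (B := (H ⊔ zpowers x) ⊓ normalizer (R : Set G)) hyp.pS.to_inf_left
    (inf_le_inf_right _ hSK)
  obtain ⟨k, hk, hkA⟩ := hyp.sylK.conj hA.2.1 (hA.1.trans inf_le_left)
  have hxR : x ∈ R := Subgroup.mem_sup_right (mem_zpowers x)
  have hRA0 : R ≤ A := (le_inf (sup_le_sup_right inf_le_left _) Subgroup.le_normalizer).trans hA0
  -- `k` commutes with `x`
  set Q : Subgroup G := T ⊓ normalizer (P : Set G) with hQ
  have hPQ : P < Q := lt_inf_normalizer hyp.syl.2.1 hlt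
  have hQcard : n < Nat.card Q := by
    rw [← hcard]
    exact Set.ncard_lt_ncard (s := (P : Set G)) (t := (Q : Set G)) hPQ (Set.toFinite _)
  have hkx : k * x * k⁻¹ = x := by
    refine hyp.obs hn hk (Q := Q) inf_le_left hQcard ?_ (hkA x (hRA0 hxR))
    intro q hq
    exact hkA q (hA0 ⟨Subgroup.mem_sup_left hq.1, hyp.nzR hq.2 (hyp.comm q hq.1)⟩)
  have hyR : y ∈ R := by
    have h1 : y * x⁻¹ ∈ H := K_conj_mem hk0
    have h2 : y * x⁻¹ ∈ T ⊔ zpowers x := Subgroup.mul_mem _ hyS (Subgroup.inv_mem _ x_mem_S)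
    have h3 := hyp.mem_T h2 h1
    have h4 : y * x⁻¹ ∈ P := by
      rw [hP, mem_cT]
      refine ⟨h3, ?_⟩
      have h5 := hyp.comm_S hyS
      have h6 : x⁻¹ * y = y * x⁻¹ := by
        calc x⁻¹ * y = x⁻¹ * (y * x) * x⁻¹ := by group
          _ = x⁻¹ * (x * y) * x⁻¹ := by rw [h5]
          _ = _ := by group
      calc y * x⁻¹ * y = y * (x⁻¹ * y) := by group
        _ = y * (y * x⁻¹) := by rw [h6]
    have h7 := R.mul_mem (Subgroup.mem_sup_left h4) hxR
    simpa using h7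
  set y' := k * y * k⁻¹ with hy'
  have hy'eq : (k * k0) * x * (k * k0)⁻¹ = y' := by rw [hy', hy]; group
  have hy'S : y' ∈ T ⊔ zpowers x := hkA y (hRA0 hyR)
  have hy'ne : y' ≠ x := by
    intro h
    apply hne
    calc y = k⁻¹ * y' * k := by rw [hy']; group
      _ = k⁻¹ * (k * x * k⁻¹) * k := by rw [h, hkx]
      _ = x := by group
  have hcjP : cj k P ≤ cT T y' := by
    intro z hz
    rw [mem_cj] at hz
    have e1 : k * (k⁻¹ * z * k) * k⁻¹ = z := by group
    have h2 := hkA _ (hRA0 (Subgroup.mem_sup_left hz))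
    have h3 : k * (k⁻¹ * z * k) * k⁻¹ ∈ H := K_conj_H (hyp.syl.1 (mem_cT.1 hz).1)
    rw [e1] at h2 h3
    rw [mem_cT]
    refine ⟨hyp.mem_T h2 h3, ?_⟩
    have h4 := (mem_cT.1 hz).2
    calc z * y' = k * ((k⁻¹ * z * k) * y) * k⁻¹ := by rw [hy']; group
      _ = k * (y * (k⁻¹ * z * k)) * k⁻¹ := by rw [h4]
      _ = y' * z := by rw [hy']; group
  have hcard' : Nat.card (cT T y') ≤ n := by
    by_contra hc
    apply hy'ne
    rw [← hy'eq]
    refine hn _ (Subgroup.mul_mem _ hk hk0) ?_ ?_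
    · rw [hy'eq]; exact hy'S
    · rw [hy'eq]; omega
  have hcTeq : cj k P = cT T y' := by
    refine Subgroup.eq_of_le_of_card_ge hcjP ?_
    rw [card_cj, hcard]; exact hcard'
  have hR' : cT T y' ⊔ zpowers x = cj k R := by
    rw [hR, cj_sup_zpowers hkx, hcTeq]
  refine ⟨k * k0, Subgroup.mul_mem _ hk hk0, ?_, ?_, ?_, ?_⟩
  · rw [hy'eq]; exact hy'S
  · rw [hy'eq, ← hcTeq, card_cj]; exact hcard
  · rw [hy'eq]; exact hy'ne
  · rw [hy'eq, hR']
    obtain ⟨A2, hA2, hA2S⟩ := exists_syl (p := p)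
      (P := (T ⊔ zpowers x) ⊓ normalizer ((cj k R : Subgroup G) : Set G))
      (B := (H ⊔ zpowers x) ⊓ normalizer ((cj k R : Subgroup G) : Set G)) hyp.pS.to_inf_left
      (inf_le_inf_right _ hSK)
    refine hA2S.of_card hyp.pS.to_inf_left (inf_le_inf_right _ hSK) ?_
    have h1 : cj k⁻¹ A2 ≤ (H ⊔ zpowers x) ⊓ normalizer (R : Set G) := by
      intro z hz
      rw [mem_cj, inv_inv] at hz
      have h2 := hA2S.1 hz
      have e1 : k⁻¹ * (k * z * k⁻¹) * k = z := by group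
      refine ⟨?_, ?_⟩
      · rw [← e1]
        exact Subgroup.mul_mem _ (Subgroup.mul_mem _ (Subgroup.inv_mem _ hk) h2.1) hk
      · have h3 := mem_nz_cj.1 h2.2
        rwa [e1] at h3
    have h2 := hA.card_le (isPGroup_cj (b := k⁻¹) hA2S.2.1) h1
    rw [card_cj] at h2
    have h3 : cj k A ≤ (T ⊔ zpowers x) ⊓ normalizer ((cj k R : Subgroup G) : Set G) := by
      intro z hz
      rw [mem_cj] at hz
      have e1 : k * (k⁻¹ * z * k) * k⁻¹ = z := by group
      refine ⟨?_, ?_⟩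
      · have := hkA _ hz
        rwa [e1] at this
      · exact mem_nz_cj.2 (hA.1 hz).2
    have h4 : Nat.card (cj k A) ≤
        Nat.card ((T ⊔ zpowers x) ⊓ normalizer ((cj k R : Subgroup G) : Set G) : Subgroup G) :=
      Nat.card_le_card_of_injective (Subgroup.inclusion h3) (Subgroup.inclusion_injective h3)
    rw [card_cj] at h4
    exact h2.trans h4

theorem Hyp.step {n : ℕ} (hn : Iso H T x (n + 1)) : Iso H T x n := by
  intro k1 hk1 hk1S hk1c
  by_contra hne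
  have hcard1 : Nat.card (cT T (k1 * x * k1⁻¹)) = n := by
    by_contra hc
    exact hne (hn k1 hk1 hk1S (by omega))
  -- the case where the conjugate centralises `T`
  have hlt1 : cT T (k1 * x * k1⁻¹) < T := by
    refine lt_of_le_of_ne inf_le_left ?_
    intro heq
    apply hne
    obtain ⟨k, hk, hkx, hkT⟩ := hyp.stepA hk1
    rw [heq] at hkT
    obtain ⟨h, hh, i, hki, hhx, hht⟩ := hyp.toH hk
    rw [← hkx, ← hhx]
    refine hyp.base hh (by rw [hhx, hkx]; exact hk1S) ?_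
    -- `k⁻¹ T k ≤ T` so `k T k⁻¹ ≤ T`
    have h1 : k⁻¹ ∈ normalizer (T : Set G) := mem_nz.2 (fun q hq => by
      have := hkT q hq
      simpa using this)
    have h2 : k ∈ normalizer (T : Set G) := by
      have := Subgroup.inv_mem _ h1
      simpa using this
    intro t ht
    rw [← hht t (hyp.comm t ht)]
    exact mem_nz.1 h2 t ht
  obtain ⟨k0, hk0, hk0S, hk0c, hk0ne, hfull⟩ := hyp.full hn hk1 hk1S hcard1 hlt1 hne
  obtain ⟨k, hk, hkx, hkT⟩ := hyp.stepA hk0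
  rw [← hkx] at hk0S hk0c hk0ne hfull hkT
  set y := k * x * k⁻¹ with hy
  have hlt : cT T y < T := by
    refine lt_of_le_of_ne inf_le_left ?_
    intro heq
    have h1 := Set.ncard_lt_ncard (s := (cT T (k1 * x * k1⁻¹) : Set G)) (t := (T : Set G))
      hlt1 (Set.toFinite _)
    have h2 : Nat.card (cT T (k1 * x * k1⁻¹)) < Nat.card T := h1
    rw [hcard1, ← hk0c, heq] at h2
    exact lt_irrefl _ h2
  set P := cT T y with hP
  set R : Subgroup G := P ⊔ zpowers x with hR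
  have hxR : x ∈ R := Subgroup.mem_sup_right (mem_zpowers x)
  have hsP : y * x⁻¹ ∈ P := by
    have h1 : y * x⁻¹ ∈ H := K_conj_mem hk
    have h2 : y * x⁻¹ ∈ T ⊔ zpowers x := Subgroup.mul_mem _ hk0S (Subgroup.inv_mem _ x_mem_S)
    have h3 := hyp.mem_T h2 h1
    rw [hP, mem_cT]
    refine ⟨h3, ?_⟩
    have h5 := hyp.comm_S hk0S
    have h6 : x⁻¹ * y = y * x⁻¹ := by
      calc x⁻¹ * y = x⁻¹ * (y * x) * x⁻¹ := by group
        _ = x⁻¹ * (x * y) * x⁻¹ := by rw [h5]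
        _ = _ := by group
    calc y * x⁻¹ * y = y * (x⁻¹ * y) := by group
      _ = y * (y * x⁻¹) := by rw [h6]
  have hyR : y ∈ R := by
    have h7 := R.mul_mem (Subgroup.mem_sup_left hsP) hxR
    simpa using h7
  -- `P0 = k⁻¹ P k`
  set P0 := cj k⁻¹ P with hP0
  have hP0T : P0 ≤ T := by
    intro z hz
    rw [hP0, mem_cj, inv_inv] at hz
    have := hkT _ hz
    have e1 : k⁻¹ * (k * z * k⁻¹) * k = z := by group
    rwa [e1] at this
  have hP0c : Nat.card P0 = n := by rw [hP0, card_cj]; exact hk0c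
  have hP0lt : P0 < T := by
    refine lt_of_le_of_ne hP0T ?_
    intro heq
    have h1 := Set.ncard_lt_ncard (s := (P : Set G)) (t := (T : Set G)) hlt (Set.toFinite _)
    have h2 : Nat.card P < Nat.card T := h1
    rw [← heq, hP0c, hk0c] at h2
    exact lt_irrefl _ h2
  set Q0 : Subgroup G := T ⊓ normalizer (P0 : Set G) with hQ0
  have hPQ : P0 < Q0 := lt_inf_normalizer hyp.syl.2.1 hP0lt
  have hQcard : n < Nat.card Q0 := by
    rw [← hP0c]
    exact Set.ncard_lt_ncard (s := (P0 : Set G)) (t := (Q0 : Set G)) hPQ (Set.toFinite _)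
  have hB : IsPGroup p (Q0 ⊔ zpowers x : Subgroup G) :=
    hyp.pS.to_le (sup_le_sup_right inf_le_left _)
  have hBK : cj k (Q0 ⊔ zpowers x) ≤ (H ⊔ zpowers x) ⊓ normalizer (R : Set G) := by
    have hQ0n : ∀ q ∈ Q0, k * q * k⁻¹ ∈ (H ⊔ zpowers x) ⊓ normalizer (R : Set G) := by
      intro q hq
      refine ⟨Subgroup.mem_sup_left (K_conj_H (hyp.syl.1 hq.1)), mem_nz.2 ?_⟩
      intro r hr
      obtain ⟨t, ht, i, rfl⟩ := hyp.memR.1 hr
      -- r = t x^i, x = s⁻¹ y
      have hs : x = (y * x⁻¹)⁻¹ * y := by group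
      have h1 : ∀ t ∈ P, (k * q * k⁻¹) * t * (k * q * k⁻¹)⁻¹ ∈ P := by
        intro t ht
        have h2 : k⁻¹ * t * k ∈ P0 := by
          rw [hP0, mem_cj, inv_inv]
          have e1 : k * (k⁻¹ * t * k) * k⁻¹ = t := by group
          rw [e1]; exact ht
        have h3 := mem_nz.1 hq.2 _ h2
        rw [hP0, mem_cj, inv_inv] at h3
        have e1 : k * (q * (k⁻¹ * t * k) * q⁻¹) * k⁻¹ = (k * q * k⁻¹) * t * (k * q * k⁻¹)⁻¹ := by
          group
        rwa [e1] at h3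
      have h4 : (k * q * k⁻¹) * y * (k * q * k⁻¹)⁻¹ = y := by
        have h5 := hyp.comm q hq.1
        calc (k * q * k⁻¹) * y * (k * q * k⁻¹)⁻¹ = k * (q * x) * q⁻¹ * k⁻¹ := by rw [hy]; group
          _ = k * (x * q) * q⁻¹ * k⁻¹ := by rw [h5]
          _ = y := by rw [hy]; group
      have h6 : (k * q * k⁻¹) * x * (k * q * k⁻¹)⁻¹ ∈ R := by
        have e1 : (k * q * k⁻¹) * x * (k * q * k⁻¹)⁻¹ =
            ((k * q * k⁻¹) * (y * x⁻¹) * (k * q * k⁻¹)⁻¹)⁻¹ *
              ((k * q * k⁻¹) * y * (k * q * k⁻¹)⁻¹) := by group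
        rw [e1, h4]
        exact R.mul_mem (R.inv_mem (Subgroup.mem_sup_left (h1 _ hsP))) hyR
      have e2 : (k * q * k⁻¹) * (t * x ^ i) * (k * q * k⁻¹)⁻¹ =
          ((k * q * k⁻¹) * t * (k * q * k⁻¹)⁻¹) * ((k * q * k⁻¹) * x * (k * q * k⁻¹)⁻¹) ^ i := by
        rw [conj_zpow]; group
      rw [e2]
      exact R.mul_mem (Subgroup.mem_sup_left (h1 t ht)) (Subgroup.zpow_mem _ h6 i)
    intro z hz
    rw [mem_cj] at hz
    obtain ⟨q, hq, i, hqi⟩ := (mem_sup_zpowers_of_comm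
      (fun t (ht : t ∈ Q0) => hyp.comm t ht.1)).1 hz
    have e1 : z = (k * q * k⁻¹) * y ^ i := by
      rw [hy, conj_zpow]
      calc z = k * (k⁻¹ * z * k) * k⁻¹ := by group
        _ = k * (q * x ^ i) * k⁻¹ := by rw [hqi]
        _ = _ := by group
    rw [e1]
    have hyM : y ∈ (H ⊔ zpowers x) ⊓ normalizer (R : Set G) :=
      ⟨hyp.sylK.1 hk0S, Subgroup.le_normalizer hyR⟩
    exact Subgroup.mul_mem _ (hQ0n q hq) (Subgroup.zpow_mem _ hyM i)
  obtain ⟨b, hb, hbA⟩ := hfull.conj (isPGroup_cj (b := k) hB) hBK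
  have hbk : (b * k) * x * (b * k)⁻¹ = x := by
    refine hyp.obs hn (Subgroup.mul_mem _ hb.1 hk) (Q := Q0) inf_le_left hQcard ?_ ?_
    · intro q hq
      have h1 := (hbA _ (conj_mem_cj (b := k)
        (Subgroup.mem_sup_left (T := zpowers x) hq : q ∈ Q0 ⊔ zpowers x))).1
      have e1 : b * (k * q * k⁻¹) * b⁻¹ = (b * k) * q * (b * k)⁻¹ := by group
      rwa [e1] at h1
    · have h1 := (hbA _ (conj_mem_cj (b := k)
        (Subgroup.mem_sup_right (S := Q0) (mem_zpowers x) : x ∈ Q0 ⊔ zpowers x))).1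
      have e1 : b * (k * x * k⁻¹) * b⁻¹ = (b * k) * x * (b * k)⁻¹ := by group
      rwa [e1] at h1
  -- `m = b⁻¹` maps `x` to `y`
  have hbm : b⁻¹ * x * b = y := by
    calc b⁻¹ * x * b = b⁻¹ * ((b * k) * x * (b * k)⁻¹) * b := by rw [hbk]
      _ = y := by rw [hy]; group
  obtain ⟨h, hh, i, hhi, hhx, _⟩ := hyp.toH (Subgroup.inv_mem _ hb.1 : b⁻¹ ∈ H ⊔ zpowers x)
  have hhM : h ∈ H ⊓ normalizer (R : Set G) := by
    refine ⟨hh, ?_⟩
    have e1 : h = b⁻¹ * (x ^ i)⁻¹ := by rw [hhi]; group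
    rw [e1]
    exact Subgroup.mul_mem _ (Subgroup.inv_mem _ hb.2)
      (Subgroup.inv_mem _ (Subgroup.zpow_mem _ (Subgroup.le_normalizer hxR) i))
  have h1 := hyp.key hn hk0S hk0c hlt hfull hhM
  apply hk0ne
  calc y = b⁻¹ * x * b := hbm.symm
    _ = h * x * h⁻¹ := by rw [hhx]; group
    _ = x := h1

theorem Hyp.iso_all (n : ℕ) : Iso H T x n := by
  have h1 : ∀ j : ℕ, Iso H T x (Nat.card T + 1 - j) := by
    intro j
    induction j with
    | zero =>
      intro k _ _ hc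
      exfalso
      have h2 : Nat.card (cT T (k * x * k⁻¹)) ≤ Nat.card T :=
        Nat.card_le_card_of_injective (Subgroup.inclusion (inf_le_left : cT T (k * x * k⁻¹) ≤ T))
          (Subgroup.inclusion_injective _)
      omega
    | succ j ih =>
      rcases Nat.lt_or_ge (Nat.card T) (j + 1) with h | h
      · rcases Nat.eq_or_lt_of_le h with h' | h'
        · have e1 : Nat.card T + 1 - j = Nat.card T + 1 - (j + 1) + 1 := by omega
          rw [e1] at ih
          exact hyp.step ih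
        · have e1 : Nat.card T + 1 - j = Nat.card T + 1 - (j + 1) := by omega
          rwa [e1] at ih
      · have e1 : Nat.card T + 1 - j = Nat.card T + 1 - (j + 1) + 1 := by omega
        rw [e1] at ih
        exact hyp.step ih
  have h2 := h1 (Nat.card T + 1)
  intro k hk hkS _
  exact h2 k hk hkS (by omega)

/-- **Isolation theorem.** -/
theorem Hyp.isolated {h : G} (hh : h ∈ H) (hhx : h * x * h⁻¹ ∈ T ⊔ zpowers x) :
    h * x * h⁻¹ = x :=
  hyp.iso_all 0 h (Subgroup.mem_sup_left hh) hhx (Nat.zero_le _)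

end Pool.Agent.FusionCentral
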