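import Mathlib

set_option autoImplicit false

/-!
Sylow subgroups of subgroups, in a relative formulation.
-/

namespace Pool.Agent.FusionCentral

open Subgroup

variable {G : Type*} [Group G]

/-- `A` is a Sylow `p`-subgroup of `B`. -/
def Syl (p : ℕ) (A B : Subgroup G) : Prop :=
  A ≤ B ∧ IsPGroup p A ∧ ¬ p ∣ A.relIndex B

/-- the conjugate `b P b⁻¹` -/
def cj (b : G) (P : Subgroup G) : Subgroup G := P.map (MulAut.conj b).toMonoidHom

theorem mem_cj {b y : G} {P : Subgroup G} : y ∈ cj b P ↔ b⁻¹ * y * b ∈ P := by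
  unfold cj
  rw [Subgroup.mem_map]
  constructor
  · rintro ⟨z, hz, rfl⟩
    have : b⁻¹ * ((MulAut.conj b).toMonoidHom z) * b = z := by
      simp [MulAut.conj_apply]; group
    rw [this]; exact hz
  · intro h
    refine ⟨_, h, ?_⟩
    simp [MulAut.conj_apply]; group

theorem card_cj (b : G) (P : Subgroup G) : Nat.card (cj b P) = Nat.card P := by
  unfold cj
  exact (Nat.card_congr ((P.equivMapOfInjective _ (MulAut.conj b).injective).toEquiv)).symm

theorem isPGroup_cj {p : ℕ} {b : G} {P : Subgroup G} (h : IsPGroup p P) : IsPGroup p (cj b P) :=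
  h.map _

theorem conj_mem_cj {b y : G} {P : Subgroup G} (h : y ∈ P) : b * y * b⁻¹ ∈ cj b P := by
  rw [mem_cj]
  have : b⁻¹ * (b * y * b⁻¹) * b = y := by group
  rw [this]; exact h

section fin

variable [Finite G] {p : ℕ} [hp : Fact p.Prime]

theorem mem_nz {P : Subgroup G} {g : G} :
    g ∈ normalizer (P : Set G) ↔ ∀ y ∈ P, g * y * g⁻¹ ∈ P := by
  constructor
  · intro h y hy
    exact (mem_normalizer_iff.1 h y).1 hy
  · intro h
    exact Subgroup.mem_normalizer_fintype (S := (P : Set G)) (fun n hn => h n hn)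

/-- Sylow's second theorem, relative form. -/
theorem Syl.conj {A B P : Subgroup G} (hA : Syl p A B) (hP : IsPGroup p P) (hPB : P ≤ B) :
    ∃ b ∈ B, ∀ y ∈ P, b * y * b⁻¹ ∈ A := by
  have hA' : IsPGroup p (A.subgroupOf B) := hA.2.1.comap_subtype
  have hidx : ¬ p ∣ (A.subgroupOf B).index := hA.2.2
  let SA : Sylow p B := hA'.toSylow hidx
  obtain ⟨Q, hQ⟩ := (hP.comap_subtype (K := B)).exists_le_sylow
  obtain ⟨b, hb⟩ := MulAction.exists_smul_eq B Q SA
  refine ⟨b, b.2, fun y hy => ?_⟩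
  have hyQ : (⟨y, hPB hy⟩ : B) ∈ Q := hQ (by
    show ((⟨y, hPB hy⟩ : B) : G) ∈ P
    exact hy)
  have h2 : b * ⟨y, hPB hy⟩ * b⁻¹ ∈ (b • Q : Sylow p B) := by
    have := Subgroup.smul_mem_pointwise_smul (⟨y, hPB hy⟩ : B) (MulAut.conj b) (Q : Subgroup B) hyQ
    exact this
  rw [hb] at h2
  exact h2

theorem exists_syl {P B : Subgroup G} (hP : IsPGroup p P) (hPB : P ≤ B) :
    ∃ A, P ≤ A ∧ Syl p A B := by
  obtain ⟨Q, hQ⟩ := (hP.comap_subtype (K := B)).exists_le_sylow
  refine ⟨(Q : Subgroup B).map B.subtype, ?_, ?_, ?_, ?_⟩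
  · intro y hy
    exact ⟨⟨y, hPB hy⟩, hQ (show ((⟨y, hPB hy⟩ : B) : G) ∈ P from hy), rfl⟩
  · exact Subgroup.map_subtype_le _
  · exact Q.2.map _
  · have h1 : ((Q : Subgroup B).map B.subtype).subgroupOf B = Q := by
      unfold Subgroup.subgroupOf
      exact Subgroup.comap_map_eq_self_of_injective B.subtype_injective _
    rw [Subgroup.relIndex, h1]
    exact Q.not_dvd_index

theorem Syl.card_le {A B P : Subgroup G} (hA : Syl p A B) (hP : IsPGroup p P) (hPB : P ≤ B) :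
    Nat.card P ≤ Nat.card A := by
  obtain ⟨b, _, hb⟩ := hA.conj hP hPB
  have h1 : cj b P ≤ A := by
    intro y hy
    rw [mem_cj] at hy
    have := hb _ hy
    have e : b * (b⁻¹ * y * b) * b⁻¹ = y := by group
    rwa [e] at this
  rw [← card_cj b P]
  exact Nat.card_le_card_of_injective (Subgroup.inclusion h1) (Subgroup.inclusion_injective h1)

theorem Syl.eq_of_le {A B P : Subgroup G} (hA : Syl p A B) (hAP : A ≤ P) (hP : IsPGroup p P)
    (hPB : P ≤ B) : P = A :=
  (Subgroup.eq_of_le_of_card_ge hAP (hA.card_le hP hPB)).symm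

theorem Syl.of_card {A B P : Subgroup G} (hA : Syl p A B) (hP : IsPGroup p P)
    (hPB : P ≤ B) (hc : Nat.card A ≤ Nat.card P) : Syl p P B := by
  obtain ⟨A', hPA', hA'⟩ := exists_syl hP hPB
  have h1 : Nat.card A' ≤ Nat.card P := (hA.card_le hA'.2.1 hA'.1).trans hc
  have h2 : P = A' := Subgroup.eq_of_le_of_card_ge hPA' h1
  rw [h2]; exact hA'

theorem Syl.mono {A B C : Subgroup G} (hA : Syl p A B) (hAC : A ≤ C) (hCB : C ≤ B) :
    Syl p A C := by
  refine ⟨hAC, hA.2.1, fun h => hA.2.2 ?_⟩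
  rw [← Subgroup.relIndex_mul_relIndex A C B hAC hCB]
  exact Dvd.dvd.mul_right h _

/-- a Sylow subgroup meets a subgroup normalised by the big group in a Sylow subgroup -/
theorem Syl.inf {A B N : Subgroup G} (hA : Syl p A B)
    (hN : ∀ b ∈ B, ∀ n ∈ N, b * n * b⁻¹ ∈ N) : Syl p (A ⊓ N) (B ⊓ N) := by
  obtain ⟨A', hA1, hA'⟩ := exists_syl (p := p) (P := A ⊓ N) (B := B ⊓ N)
    (hA.2.1.to_inf_left) (inf_le_inf_right _ hA.1)
  obtain ⟨b, hbB, hb⟩ := hA.conj hA'.2.1 (hA'.1.trans inf_le_left)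
  have h1 : cj b A' ≤ A ⊓ N := by
    intro y hy
    rw [mem_cj] at hy
    have e : b * (b⁻¹ * y * b) * b⁻¹ = y := by group
    refine ⟨?_, ?_⟩
    · have := hb _ hy
      rwa [e] at this
    · have := hN b hbB _ (hA'.1 hy).2
      rwa [e] at this
  have h2 : Nat.card A' ≤ Nat.card (A ⊓ N : Subgroup G) := by
    rw [← card_cj b A']
    exact Nat.card_le_card_of_injective (Subgroup.inclusion h1) (Subgroup.inclusion_injective h1)
  have h3 : A ⊓ N = A' := Subgroup.eq_of_le_of_card_ge hA1 h2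
  rw [h3]; exact hA'

theorem syl_sylow_inf (S : Sylow p G) (H : Subgroup G) [H.Normal] :
    Syl p ((S : Subgroup G) ⊓ H) H := by
  have h : Syl p (S : Subgroup G) ⊤ := by
    refine ⟨le_top, S.2, ?_⟩
    rw [Subgroup.relIndex_top_right]
    exact S.not_dvd_index
  have := h.inf (N := H) (fun b _ n hn => Subgroup.Normal.conj_mem inferInstance n hn b)
  rwa [top_inf_eq] at this

theorem isPGroup_zpowers {x : G} (k : ℕ) (hx : x ^ p ^ k = 1) : IsPGroup p (zpowers x) := by
  intro y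
  obtain ⟨y, i, rfl⟩ := y
  refine ⟨k, ?_⟩
  ext
  simp only [SubmonoidClass.coe_pow, OneMemClass.coe_one]
  rw [← zpow_natCast, ← zpow_mul, mul_comm, zpow_mul, zpow_natCast, hx, one_zpow]

theorem isPGroup_zpowers_of_mem {x : G} {A : Subgroup G} (hA : IsPGroup p A) (hx : x ∈ A) :
    IsPGroup p (zpowers x) :=
  hA.to_le (by rwa [Subgroup.zpowers_le])

theorem mem_sup_zpowers_of_comm {T : Subgroup G} {x : G} (hx : ∀ t ∈ T, t * x = x * t) {y : G} :
    y ∈ T ⊔ zpowers x ↔ ∃ t ∈ T, ∃ i : ℤ, y = t * x ^ i := by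
  constructor
  · intro h
    have hc : ∀ t ∈ T, ∀ i : ℤ, t * x ^ i = x ^ i * t := by
      intro t ht i
      exact (Commute.zpow_right (show Commute t x from hx t ht) i).eq
    let U : Subgroup G :=
      { carrier := {y | ∃ t ∈ T, ∃ i : ℤ, y = t * x ^ i}
        mul_mem' := by
          rintro a b ⟨t, ht, i, rfl⟩ ⟨t', ht', j, rfl⟩
          refine ⟨t * t', T.mul_mem ht ht', i + j, ?_⟩
          rw [zpow_add]
          calc t * x ^ i * (t' * x ^ j) = t * (x ^ i * t') * x ^ j := by group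
            _ = t * (t' * x ^ i) * x ^ j := by rw [hc t' ht' i]
            _ = _ := by group
        one_mem' := ⟨1, T.one_mem, 0, by simp⟩
        inv_mem' := by
          rintro a ⟨t, ht, i, rfl⟩
          refine ⟨t⁻¹, T.inv_mem ht, -i, ?_⟩
          rw [mul_inv_rev, ← zpow_neg, hc t⁻¹ (T.inv_mem ht) (-i)] }
    have h1 : T ⊔ zpowers x ≤ U := by
      refine sup_le (fun t ht => ⟨t, ht, 0, by simp⟩) ?_
      rw [Subgroup.zpowers_le]
      exact ⟨1, T.one_mem, 1, by simp⟩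
    exact h1 h
  · rintro ⟨t, ht, i, rfl⟩
    exact Subgroup.mul_mem_sup ht (Subgroup.zpow_mem_zpowers x i)

theorem mem_sup_zpowers_of_normal {H : Subgroup G} [H.Normal] {x : G} {y : G} :
    y ∈ H ⊔ zpowers x ↔ ∃ t ∈ H, ∃ i : ℤ, y = t * x ^ i := by
  rw [← SetLike.mem_coe, Subgroup.normal_mul]
  constructor
  · rintro ⟨t, ht, z, ⟨i, rfl⟩, rfl⟩
    exact ⟨t, ht, i, rfl⟩
  · rintro ⟨t, ht, i, rfl⟩
    exact ⟨t, ht, _, ⟨i, rfl⟩, rfl⟩

theorem isPGroup_sup {T : Subgroup G} {x : G} (hT : IsPGroup p T) (hxp : IsPGroup p (zpowers x))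
    (hx : ∀ t ∈ T, t * x = x * t) : IsPGroup p (T ⊔ zpowers x : Subgroup G) := by
  refine IsPGroup.to_sup_of_normal_left' hT hxp ?_
  rw [Subgroup.zpowers_le, mem_nz]
  intro y hy
  have : x * y * x⁻¹ = y := by rw [← hx y hy]; group
  rwa [this]

theorem Syl.sup_zpowers {T H : Subgroup G} [H.Normal] {x : G} (hT : Syl p T H)
    (hxp : IsPGroup p (zpowers x)) (hx : ∀ t ∈ T, t * x = x * t) :
    Syl p (T ⊔ zpowers x) (H ⊔ zpowers x) := by
  obtain ⟨A, hA1, hA⟩ := exists_syl (p := p) (isPGroup_sup hT.2.1 hxp hx)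
    (sup_le_sup_right hT.1 (zpowers x))
  have h2 : A ≤ T ⊔ zpowers x := by
    intro a ha
    obtain ⟨h, hh, i, rfl⟩ := mem_sup_zpowers_of_normal.1 (hA.1 ha)
    have hxA : x ^ i ∈ A := hA1 (Subgroup.mem_sup_right (Subgroup.zpow_mem_zpowers x i))
    have hhA : h ∈ A := by
      have := A.mul_mem ha (A.inv_mem hxA)
      simpa using this
    have h3 : A ⊓ H = T := hT.eq_of_le (le_inf (le_sup_left.trans hA1) hT.1)
      (hA.2.1.to_inf_left) inf_le_right
    have h4 : h ∈ T := by rw [← h3]; exact ⟨hhA, hh⟩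
    exact Subgroup.mul_mem_sup h4 (Subgroup.zpow_mem_zpowers x i)
  rw [le_antisymm hA1 h2]; exact hA

/-- in a `p`-group proper subgroups are properly contained in their normaliser -/
theorem lt_inf_normalizer {P T : Subgroup G} (hT : IsPGroup p T) (hPT : P < T) :
    P < T ⊓ normalizer (P : Set G) := by
  haveI : Group.IsNilpotent T := hT.isNilpotent
  have h := Group.normalizerCondition_of_isNilpotent (G := T) (P.subgroupOf T) (by
    rw [lt_top_iff_ne_top]
    intro h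
    rw [Subgroup.subgroupOf_eq_top] at h
    exact absurd hPT (not_lt_of_ge h))
  refine lt_of_le_of_ne (le_inf hPT.le Subgroup.le_normalizer) ?_
  intro heq
  have h2 : normalizer ((P.subgroupOf T : Subgroup T) : Set T) ≤ P.subgroupOf T := by
    intro t ht
    rw [mem_nz] at ht
    show (t : G) ∈ P
    rw [heq]
    refine ⟨t.2, mem_nz.2 fun y hy => ?_⟩
    exact ht ⟨y, hPT.le hy⟩ hy
  exact absurd h (not_lt_of_ge h2)

end fin

end Pool.Agent.FusionCentral
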