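import Pool.Agent.MP_ed8607_al.Main

set_option autoImplicit false
set_option linter.unusedSectionVars false

/-!
# From isolation to the `Z*`-theorem for `H⟨x⟩`
-/

namespace Pool.Agent.FusionCentral

open Subgroup

variable {G : Type*} [Group G] [Finite G] {p : ℕ} [hp : Fact p.Prime]

/-- An isolated element is fixed by suitable extensions of all fusion maps. -/
theorem ext_of_isolated {A K : Subgroup G} {x : G} (hA : Syl p A K) (hxA : x ∈ A)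
    (hxc : ∀ a ∈ A, a * x = x * a)
    (hiso : ∀ k ∈ K, k * x * k⁻¹ ∈ A → k * x * k⁻¹ = x) {P : Subgroup G} (hP : P ≤ A) {k : G}
    (hk : k ∈ K) (hkP : ∀ y ∈ P, k * y * k⁻¹ ∈ A) :
    ∃ g ∈ K, (∀ y ∈ P, g * y * g⁻¹ = k * y * k⁻¹) ∧ g * x = x * g := by
  have hxp : IsPGroup p (zpowers x) := isPGroup_zpowers_of_mem hA.2.1 hxA
  set C : Subgroup G := K ⊓ centralizer (P : Set G) with hC
  have memC : ∀ {c : G}, c ∈ C ↔ c ∈ K ∧ ∀ t ∈ P, c * t = t * c := by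
    intro c
    rw [hC, Subgroup.mem_inf, Subgroup.mem_centralizer_iff]
    exact ⟨fun h => ⟨h.1, fun t ht => (h.2 t ht).symm⟩, fun h => ⟨h.1, fun t ht => (h.2 t ht).symm⟩⟩
  have hxC : x ∈ C := memC.2 ⟨hA.1 hxA, fun t ht => (hxc t (hP ht)).symm⟩
  have hx'C : k⁻¹ * x * k ∈ C := by
    refine memC.2 ⟨K.mul_mem (K.mul_mem (K.inv_mem hk) (hA.1 hxA)) hk, fun t ht => ?_⟩
    have h1 := hxc _ (hkP t ht)
    calc k⁻¹ * x * k * t = k⁻¹ * (x * (k * t * k⁻¹)) * k := by group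
      _ = k⁻¹ * ((k * t * k⁻¹) * x) * k := by rw [h1]
      _ = _ := by group
  obtain ⟨B, hB1, hB⟩ := exists_syl (p := p) (P := zpowers x) (B := C) hxp
    (by rw [Subgroup.zpowers_le]; exact hxC)
  have hx'p : IsPGroup p (zpowers (k⁻¹ * x * k)) := by
    obtain ⟨j, hj⟩ := hxp ⟨x, mem_zpowers x⟩
    refine isPGroup_zpowers j ?_
    have h1 : x ^ p ^ j = 1 := by
      have := congrArg Subtype.val hj
      simpa using this
    have h2 : (k⁻¹ * x * k) ^ p ^ j = k⁻¹ * x ^ p ^ j * k := by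
      have := conj_pow (a := k⁻¹) (b := x) (i := p ^ j)
      simpa using this
    rw [h2, h1]; group
  obtain ⟨c, hc, hcB⟩ := hB.conj hx'p (by rw [Subgroup.zpowers_le]; exact hx'C)
  obtain ⟨d, hd, hdA⟩ := hA.conj hB.2.1 (hB.1.trans inf_le_left)
  have hc' := memC.1 hc
  have h1 : d * x * d⁻¹ = x := hiso d hd (hdA x (hB1 (mem_zpowers x)))
  have h2 : (d * c * k⁻¹) * x * (d * c * k⁻¹)⁻¹ = x := by
    refine hiso _ (K.mul_mem (K.mul_mem hd hc'.1) (K.inv_mem hk)) ?_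
    have := hdA _ (hcB _ (mem_zpowers _))
    have e1 : d * (c * (k⁻¹ * x * k) * c⁻¹) * d⁻¹ = (d * c * k⁻¹) * x * (d * c * k⁻¹)⁻¹ := by group
    rwa [e1] at this
  refine ⟨k * c⁻¹, K.mul_mem hk (K.inv_mem hc'.1), ?_, ?_⟩
  · intro y hy
    have h3 := hc'.2 y hy
    calc k * c⁻¹ * y * (k * c⁻¹)⁻¹ = k * (c⁻¹ * (y * c)) * k⁻¹ := by group
      _ = k * (c⁻¹ * (c * y)) * k⁻¹ := by rw [h3]
      _ = _ := by group
  · have h4 : (d * c * k⁻¹) * x = x * (d * c * k⁻¹) := by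
      calc (d * c * k⁻¹) * x = ((d * c * k⁻¹) * x * (d * c * k⁻¹)⁻¹) * (d * c * k⁻¹) := by group
        _ = _ := by rw [h2]
    have h5 : d * x = x * d := by
      calc d * x = (d * x * d⁻¹) * d := by group
        _ = _ := by rw [h1]
    have h6 : (c * k⁻¹) * x = x * (c * k⁻¹) := by
      calc (c * k⁻¹) * x = d⁻¹ * ((d * c * k⁻¹) * x) := by group
        _ = d⁻¹ * (x * d) * c * k⁻¹ := by rw [h4]; group
        _ = d⁻¹ * (d * x) * c * k⁻¹ := by rw [h5]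
        _ = _ := by group
    calc k * c⁻¹ * x = (c * k⁻¹)⁻¹ * (x * (c * k⁻¹)) * (c * k⁻¹)⁻¹ := by group
      _ = (c * k⁻¹)⁻¹ * ((c * k⁻¹) * x) * (c * k⁻¹)⁻¹ := by rw [h6]
      _ = x * (k * c⁻¹) := by group

/-- `O_{p'}(H⟨x⟩) = 1` if `O_{p'}(H) = 1`. -/
theorem no_pprime_sup {H : Subgroup G} [H.Normal] {x : G} (hxp : IsPGroup p (zpowers x))
    (hN : ∀ N : Subgroup G, N ≤ H → (∀ h ∈ H, ∀ n ∈ N, h * n * h⁻¹ ∈ N) →
      Nat.Coprime (Nat.card N) p → N = ⊥)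
    (N : Subgroup G) (hNK : N ≤ H ⊔ zpowers x) (hNn : ∀ k ∈ H ⊔ zpowers x, ∀ n ∈ N, k * n * k⁻¹ ∈ N)
    (hc : Nat.Coprime (Nat.card N) p) : N = ⊥ := by
  have h1 : N ⊓ H = ⊥ := by
    apply hN _ inf_le_right
    · intro h hh n hn
      exact ⟨hNn h (Subgroup.mem_sup_left hh) n hn.1, K_conj_H hn.2⟩
    · exact Nat.Coprime.coprime_dvd_left (Subgroup.card_dvd_of_le inf_le_left) hc
  obtain ⟨j, hj⟩ := hxp ⟨x, mem_zpowers x⟩
  have hxj : x ^ p ^ j = 1 := by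
    have := congrArg Subtype.val hj
    simpa using this
  rw [eq_bot_iff]
  intro n hn
  obtain ⟨h, hh, i, hni⟩ := mem_sup_zpowers_of_normal.1 (hNK hn)
  have h2 : n ^ p ^ j ∈ H := by
    rw [← QuotientGroup.eq_one_iff, QuotientGroup.mk_pow, hni, QuotientGroup.mk_mul,
      (QuotientGroup.eq_one_iff h).2 hh, one_mul, QuotientGroup.mk_zpow, ← zpow_natCast,
      ← zpow_mul, mul_comm, zpow_mul, zpow_natCast, ← QuotientGroup.mk_pow, hxj,
      QuotientGroup.mk_one, one_zpow]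
  have h3 : n ^ p ^ j ∈ N ⊓ H := ⟨N.pow_mem hn _, h2⟩
  rw [h1, Subgroup.mem_bot] at h3
  have h4 : orderOf n ∣ p ^ j := orderOf_dvd_of_pow_eq_one h3
  have h5 : orderOf n ∣ Nat.card N := Subgroup.orderOf_dvd_natCard N hn
  have h6 : orderOf n ∣ Nat.gcd (Nat.card N) (p ^ j) := Nat.dvd_gcd h5 h4
  have h7 : Nat.gcd (Nat.card N) (p ^ j) = 1 := (hc.pow_right j)
  rw [h7, Nat.dvd_one] at h6
  rw [Subgroup.mem_bot]
  exact orderOf_eq_one_iff.1 h6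

end Pool.Agent.FusionCentral
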